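import Mathlib

/-!
# Few multiple zeta values of small depth
-/

set_option autoImplicit false

namespace MZG

open Finset

/-- the binomial sum, with `q = k / 17`, is at most `16 ^ q * (17/16) ^ k`. -/
theorem sum17_le (k : ℕ) :
    ((∑ j ∈ range (k / 17), (k - 2).choose j : ℕ) : ℝ) ≤ (16 : ℝ) ^ (k / 17) * (17 / 16 : ℝ) ^ k := by
  have h1 : ((∑ j ∈ range (k / 17), (k - 2).choose j : ℕ) : ℝ) ≤
      ∑ j ∈ range (k / 17), (k.choose j : ℝ) := by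
    push_cast
    refine Finset.sum_le_sum fun j _ => ?_
    exact_mod_cast Nat.choose_le_choose j (Nat.sub_le k 2)
  have h2 : ∑ j ∈ range (k / 17), (k.choose j : ℝ) ≤
      ∑ j ∈ range (k / 17), (16 : ℝ) ^ (k / 17) * ((1 / 16 : ℝ) ^ j * (k.choose j : ℝ)) := by
    refine Finset.sum_le_sum fun j hj => ?_
    have hj' : j ≤ k / 17 := (mem_range.1 hj).le
    have h3 : (1 : ℝ) ≤ (16 : ℝ) ^ (k / 17) * (1 / 16 : ℝ) ^ j := by
      have : (1 : ℝ) = (16 : ℝ) ^ j * (1 / 16 : ℝ) ^ j := by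
        rw [← mul_pow]; norm_num
      calc (1 : ℝ) = (16 : ℝ) ^ j * (1 / 16 : ℝ) ^ j := this
        _ ≤ (16 : ℝ) ^ (k / 17) * (1 / 16 : ℝ) ^ j := by
          apply mul_le_mul_of_nonneg_right _ (by positivity)
          exact pow_le_pow_right₀ (by norm_num) hj'
    have h4 : (0 : ℝ) ≤ (k.choose j : ℝ) := by positivity
    calc (k.choose j : ℝ) = 1 * (k.choose j : ℝ) := by ring
      _ ≤ ((16 : ℝ) ^ (k / 17) * (1 / 16 : ℝ) ^ j) * (k.choose j : ℝ) :=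
          mul_le_mul_of_nonneg_right h3 h4
      _ = _ := by ring
  have h5 : ∑ j ∈ range (k / 17), ((1 / 16 : ℝ) ^ j * (k.choose j : ℝ)) ≤ (17 / 16 : ℝ) ^ k := by
    have h6 : (17 / 16 : ℝ) ^ k = ∑ j ∈ range (k + 1), ((1 / 16 : ℝ) ^ j * (k.choose j : ℝ)) := by
      have := add_pow (1 / 16 : ℝ) 1 k
      rw [show (17 / 16 : ℝ) = 1 / 16 + 1 by norm_num, this]
      refine Finset.sum_congr rfl fun j _ => by simp
    rw [h6]
    refine Finset.sum_le_sum_of_subset_of_nonneg ?_ fun _ _ _ => by positivity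
    intro j hj
    rw [mem_range] at hj ⊢
    have := Nat.div_le_self k 17
    omega
  rw [← Finset.mul_sum] at h2
  calc _ ≤ _ := h1
    _ ≤ _ := h2
    _ ≤ _ := mul_le_mul_of_nonneg_left h5 (by positivity)

/-- for large `k` the number of multiple zeta values of weight `k` and depth at most `k/17` is
smaller than the lower bound for the dimension -/
theorem thm17_num : ∃ k0 : ℕ, 2 ≤ k0 ∧ ∀ k ≥ k0,
    4096 * k ^ 5 * (∑ j ∈ range (k / 17), (k - 2).choose j) ^ 3 < 2 ^ k := by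
  -- the ratio
  set ρ : ℝ := 16 ^ 3 * (17 / 16 : ℝ) ^ 51 / 2 ^ 17 with hρ
  have hρ0 : 0 < ρ := by rw [hρ]; positivity
  have hρ1 : ρ < 1 := by rw [hρ]; norm_num
  have hlim := tendsto_pow_const_mul_const_pow_of_abs_lt_one 5 (r := ρ)
    (by rw [abs_of_pos hρ0]; exact hρ1)
  have hev := hlim.eventually (gt_mem_nhds (show (0 : ℝ) < 1 / (4096 * 34 ^ 5 * 32) by norm_num))
  obtain ⟨q0, hq0⟩ := Filter.eventually_atTop.1 hev
  refine ⟨17 * (q0 + 1), by omega, fun k hk => ?_⟩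
  set q := k / 17 with hq
  have hqk : 17 * q ≤ k := by rw [hq]; exact Nat.mul_div_le k 17
  have hkq : k < 17 * q + 17 := by omega
  have hq1 : q0 + 1 ≤ q := by omega
  have hb := hq0 q (by omega)
  have hs := sum17_le k
  rw [← hq] at hs
  have h1 : ((17 / 16 : ℝ) ^ k) ^ 3 ≤ 32 * ((17 / 16 : ℝ) ^ 51) ^ q := by
    calc ((17 / 16 : ℝ) ^ k) ^ 3 ≤ ((17 / 16 : ℝ) ^ (17 * q + 17)) ^ 3 := by
          apply pow_le_pow_left₀ (by positivity)
          exact pow_le_pow_right₀ (by norm_num) hkq.le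
      _ = (17 / 16 : ℝ) ^ 51 * ((17 / 16 : ℝ) ^ 51) ^ q := by
          rw [← pow_mul, ← pow_mul, ← pow_add]
          congr 1
          ring
      _ ≤ 32 * ((17 / 16 : ℝ) ^ 51) ^ q := by
          apply mul_le_mul_of_nonneg_right _ (by positivity)
          norm_num
  have h2 : (k : ℝ) ^ 5 ≤ 34 ^ 5 * (q : ℝ) ^ 5 := by
    have : (k : ℝ) ≤ 34 * q := by
      have : k ≤ 34 * q := by omega
      exact_mod_cast this
    calc (k : ℝ) ^ 5 ≤ (34 * (q : ℝ)) ^ 5 := pow_le_pow_left₀ (by positivity) this 5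
      _ = _ := by ring
  have h3 : ((2 : ℝ) ^ 17) ^ q ≤ (2 : ℝ) ^ k := by
    rw [← pow_mul]
    exact pow_le_pow_right₀ (by norm_num) hqk
  have h4 : ρ ^ q * ((2 : ℝ) ^ 17) ^ q = ((16 : ℝ) ^ 3) ^ q * ((17 / 16 : ℝ) ^ 51) ^ q := by
    rw [← mul_pow, ← mul_pow, hρ]
    congr 1
    field_simp
  have h5 : (((∑ j ∈ range q, (k - 2).choose j : ℕ) : ℝ)) ^ 3 ≤
      ((16 : ℝ) ^ 3) ^ q * (32 * ((17 / 16 : ℝ) ^ 51) ^ q) := by
    calc (((∑ j ∈ range q, (k - 2).choose j : ℕ) : ℝ)) ^ 3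
        ≤ ((16 : ℝ) ^ q * (17 / 16 : ℝ) ^ k) ^ 3 := pow_le_pow_left₀ (Nat.cast_nonneg _) hs 3
      _ = ((16 : ℝ) ^ 3) ^ q * ((17 / 16 : ℝ) ^ k) ^ 3 := by
          rw [mul_pow, ← pow_mul (16 : ℝ) q 3, mul_comm q 3, pow_mul]
      _ ≤ _ := mul_le_mul_of_nonneg_left h1 (by positivity)
  have h6 : 4096 * (k : ℝ) ^ 5 * (((∑ j ∈ range q, (k - 2).choose j : ℕ) : ℝ)) ^ 3 < (2 : ℝ) ^ k := by
    calc 4096 * (k : ℝ) ^ 5 * (((∑ j ∈ range q, (k - 2).choose j : ℕ) : ℝ)) ^ 3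
        ≤ 4096 * (34 ^ 5 * (q : ℝ) ^ 5) * (((16 : ℝ) ^ 3) ^ q * (32 * ((17 / 16 : ℝ) ^ 51) ^ q)) := by
          apply mul_le_mul
          · exact mul_le_mul_of_nonneg_left h2 (by norm_num)
          · exact h5
          · positivity
          · positivity
      _ = (4096 * 34 ^ 5 * 32) * ((q : ℝ) ^ 5 * ρ ^ q) * ((2 : ℝ) ^ 17) ^ q := by
          rw [show (4096 * 34 ^ 5 * 32) * ((q : ℝ) ^ 5 * ρ ^ q) * ((2 : ℝ) ^ 17) ^ q =
            (4096 * 34 ^ 5 * 32) * (q : ℝ) ^ 5 * (ρ ^ q * ((2 : ℝ) ^ 17) ^ q) by ring, h4]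
          ring
      _ < 1 * ((2 : ℝ) ^ 17) ^ q := by
          apply mul_lt_mul_of_pos_right _ (by positivity)
          calc (4096 * 34 ^ 5 * 32 : ℝ) * ((q : ℝ) ^ 5 * ρ ^ q)
              < (4096 * 34 ^ 5 * 32 : ℝ) * (1 / (4096 * 34 ^ 5 * 32)) :=
                mul_lt_mul_of_pos_left hb (by norm_num)
            _ = 1 := by norm_num
      _ = ((2 : ℝ) ^ 17) ^ q := one_mul _
      _ ≤ _ := h3
  exact_mod_cast h6

end MZG
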