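import Pool.Agent.Lib.MP_e54452_nt.VV.VK
import Pool.Agent.Lib.MP_e54452_nt.DF.N4
import Pool.Agent.Lib.MP_e54452_nt.DF.N7
import Pool.Agent.Lib.MP_e54452_nt.DF.N9
import Pool.Agent.Lib.MP_e54452_nt.DF.Thm0

/-!
# The depth filtration, second version
-/

set_option autoImplicit false

namespace MZG

open Finset Module
open scoped ENNReal Nat Polynomial

/-- good words with at most `r` letters `true`: those with exactly `r` of them are maximal -/
theorem choose_le_TopF (s r : ℕ) : s.choose r ≤ (TopF (FA s r)).card := by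
  rcases r with _ | r
  · rw [Nat.choose_zero_right]
    refine Finset.card_pos.mpr ⟨[], ?_⟩
    rw [TopF, Finset.mem_filter, n4_FA_zero]
    refine ⟨Finset.mem_singleton_self _, fun w hw _ => ?_⟩
    exact Finset.mem_singleton.mp hw
  · have h1 : FA s (r + 1) \ FA s r ⊆ TopF (FA s (r + 1)) := by
      intro w hw
      rw [Finset.mem_sdiff] at hw
      obtain ⟨hw1, hw2⟩ := hw
      rw [TopF, Finset.mem_filter]
      refine ⟨hw1, ?_⟩
      rintro _ hy ⟨y, rfl⟩
      rw [n4_mem_FA] at hw1 hw2 hy
      have hc : w.count true = r + 1 := by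
        by_contra hne
        exact hw2 ⟨hw1.1, by omega⟩
      have hcy : y.count true ≤ 0 := by
        have := hy.2
        rw [List.count_append] at this
        omega
      have hg : good y = true := by
        have h2 := hy.1.1
        rw [good_iff] at h2 ⊢
        rcases h2 with h2 | h2
        · left
          exact (List.append_eq_nil_iff.mp h2).2
        · by_cases hy0 : y = []
          · left; exact hy0
          · right
            rw [List.getLast?_append_of_ne_nil _ hy0] at h2
            exact h2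
      have := n4_good_count y hg hcy
      rw [this, List.append_nil]
    have h2 : FA s r ⊆ FA s (r + 1) := by
      intro w hw
      rw [n4_mem_FA] at hw ⊢
      exact ⟨hw.1, by omega⟩
    have h3 := Finset.card_le_card h1
    rw [Finset.card_sdiff_of_subset h2, card_FA, card_FA, Finset.sum_range_succ _ (r + 1)] at h3
    omega

theorem MP_le_DW2 (s s' r t : ℕ) :
    MP (VW (FA s r) (FB s' t)) ≤ MPe54452.DW (r + t) (s + s') := by
  unfold MP MPe54452.DW
  apply Submodule.span_mono
  rintro x ⟨z, ⟨hz, u, hu, v, hv, hzd⟩, rfl⟩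
  rw [FA, Finset.mem_filter, mem_GW] at hu
  rw [FB, Finset.mem_filter, mem_GW] at hv
  refine ⟨comp 0 z, comp_adm z hz, ?_, ?_, zr_eq_mzv z hz⟩
  · rcases eq_or_ne z [] with h0 | hne
    · rw [h0]
      simp [comp]
    · rw [comp_sum z (BRb_good z hz) hne 0, hzd, nx9_length]
      omega
  · rw [comp_length, hzd, dual_count]
    omega

/-- the basic inequality for the depth filtration -/
theorem depthA (s s' r t : ℕ)
    (h : finrank ℚ (MPe54452.DW (r + t) (s + s')) * ∑ j ∈ range (r + 1), s.choose j ≤
      ∑ j ∈ range (t + 2), s'.choose j) :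
    s.choose r ≤ (8 * (s + s') + 10) * finrank ℚ (MPe54452.DW (r + t) (s + s')) := by
  haveI := DW_finite (r + t) (s + s')
  have h1 : finrank ℚ (MP (VW (FA s r) (FB s' t))) ≤
      finrank ℚ (MPe54452.DW (r + t) (s + s')) := Submodule.finrank_mono (MP_le_DW2 s s' r t)
  have h2 := main3 (fam_FA s r) (fam_FB s' t) (s + s') le_rfl (by
    rw [card_FA, card_FB]
    exact (Nat.mul_le_mul_right _ h1).trans h)
  exact (choose_le_TopF s r).trans (h2.trans (Nat.mul_le_mul_left _ h1))

/-- words: prefixes and suffixes -/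
theorem words3 (M s s' : ℕ) (hM : s + s' ≤ M) (P S : Finset (List Bool)) (hP0 : [] ∈ P)
    (hP1 : ∀ a x, x ++ [a] ∈ P → x ∈ P) (hP2 : ∀ x ∈ P, x = [] ∨ x.head? = some false)
    (hP3 : ∀ x ∈ P, x.length ≤ s) (hS0 : [] ∈ S) (hS1 : ∀ a y, a :: y ∈ S → y ∈ S)
    (hS2 : ∀ y ∈ S, y = [] ∨ y.getLast? = some true) (hS3 : ∀ y ∈ S, y.length ≤ s')
    (h : finrank ℚ (PS P S) * S.card ≤ P.card) :
    (S.filter (fun y => ∀ z ∈ S, y <+: z → z = y)).card ≤ (8 * M + 10) * finrank ℚ (PS P S) := by
  have fS := fam_S s' S hS0 hS1 hS2 hS3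
  have fP := fam_P s P hP0 hP1 hP2 hP3
  have hc : (P.image rc).card = P.card := Finset.card_image_of_injective _ rc_injective
  haveI := PS_finite P S
  have h1 : finrank ℚ (MP (VW S (P.image rc))) ≤ finrank ℚ (PS P S) :=
    Submodule.finrank_mono (MP_le_PS (max s s') P S (fS.mono (le_max_right _ _))
      (fP.mono (le_max_left _ _)))
  have h2 := main3 fS fP M (by omega) (by
    rw [hc]
    exact (Nat.mul_le_mul_right _ h1).trans h)
  exact h2.trans (Nat.mul_le_mul_left _ h1)

end MZG
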