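import Pool.Agent.Lib.MP_e54452_nt.DF.N5

/-!
# Numerical inequalities for the depth filtration, exponent three
-/

set_option autoImplicit false

namespace MZG

open Finset

lemma choose_mono_half (s r : ℕ) (h : 2 * r ≤ s) : ∀ j ≤ r, s.choose j ≤ s.choose r := by
  induction r with
  | zero => intro j hj; rw [Nat.le_zero.mp hj]
  | succ r ih =>
    intro j hj
    rcases Nat.lt_or_ge r j with h1 | h1
    · have : j = r + 1 := by omega
      rw [this]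
    · exact (ih (by omega) j h1).trans (Nat.choose_le_succ_of_lt_half_left (by omega))

lemma ratio_nat (s r T : ℕ) (hr : 1 ≤ r) (h : 2 * r ≤ s)
    (hT : T * (r + 1) * 4 ^ r ≤ (s - r).choose (r - 1)) :
    T * ∑ j ∈ range (r + 1), s.choose j ≤ ∑ j ∈ range (2 * r), s.choose j := by
  have h1 : ∑ j ∈ range (r + 1), s.choose j ≤ (r + 1) * s.choose r := by
    refine (Finset.sum_le_card_nsmul _ _ (s.choose r) (fun j hj => ?_)).trans (le_of_eq ?_)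
    · exact choose_mono_half s r h j (by
        have := Finset.mem_range.mp hj
        omega)
    · rw [card_range, smul_eq_mul]
  have h2 : s.choose (2 * r - 1) ≤ ∑ j ∈ range (2 * r), s.choose j :=
    Finset.single_le_sum (f := fun j => s.choose j) (fun _ _ => Nat.zero_le _)
      (Finset.mem_range.mpr (by omega))
  have h3 : s.choose (2 * r - 1) * (2 * r - 1).choose r = s.choose r * (s - r).choose (r - 1) := by
    have := Nat.choose_mul (n := s) (k := 2 * r - 1) (s := r) (by omega)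
    rw [this]
    congr 2
    omega
  have h4 : (2 * r - 1).choose r ≤ 4 ^ r := by
    refine (Nat.choose_le_two_pow _ _).trans ?_
    rw [show (4 : ℕ) = 2 ^ 2 by norm_num, ← pow_mul]
    exact Nat.pow_le_pow_right (by norm_num) (by omega)
  have h5 : (T * ((r + 1) * s.choose r)) * 4 ^ r ≤ s.choose (2 * r - 1) * 4 ^ r := by
    calc (T * ((r + 1) * s.choose r)) * 4 ^ r = s.choose r * (T * (r + 1) * 4 ^ r) := by ring
      _ ≤ s.choose r * (s - r).choose (r - 1) := Nat.mul_le_mul_left _ hT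
      _ = s.choose (2 * r - 1) * (2 * r - 1).choose r := h3.symm
      _ ≤ s.choose (2 * r - 1) * 4 ^ r := Nat.mul_le_mul_left _ h4
  have h6 := Nat.le_of_mul_le_mul_right h5 (by positivity)
  exact (Nat.mul_le_mul_left _ h1).trans (h6.trans h2)

/-- choice of the constant `K` -/
lemma choose_K (a c B : ℝ) (ha0 : 0 < a) (hc0 : 0 < c) (hB0 : 0 < B) : ∃ K : ℕ, 1 ≤ K ∧
    ∀ y : ℝ, (K : ℝ) ≤ y → 9 ≤ y ∧ 1 ≤ c * y ∧ B ≤ c ^ (1 + a) * y ^ a := by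
  have hca : 0 < c ^ (1 + a) := Real.rpow_pos_of_pos hc0 _
  obtain ⟨M, hM⟩ : ∃ M : ℝ, M = B / c ^ (1 + a) := ⟨_, rfl⟩
  have hM0 : 0 < M := by rw [hM]; exact div_pos hB0 hca
  refine ⟨9 + ⌈1 / c⌉₊ + ⌈M ^ (1 / a)⌉₊, by omega, fun y hy => ?_⟩
  push_cast at hy
  have hp1 : (0 : ℝ) ≤ (⌈1 / c⌉₊ : ℝ) := Nat.cast_nonneg _
  have hp2 : (0 : ℝ) ≤ (⌈M ^ (1 / a)⌉₊ : ℝ) := Nat.cast_nonneg _
  have h1 := Nat.le_ceil (1 / c)
  have h2 := Nat.le_ceil (M ^ (1 / a))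
  refine ⟨by linarith, ?_, ?_⟩
  · have hy1 : 1 / c ≤ y := by linarith
    rw [div_le_iff₀ hc0] at hy1
    linarith
  · have hyM1 : M ^ (1 / a) ≤ y := by linarith
    have h3 : (M ^ (1 / a)) ^ a = M := by
      rw [← Real.rpow_mul hM0.le, one_div_mul_cancel ha0.ne', Real.rpow_one]
    have hyM : M ≤ y ^ a := by
      rw [← h3]
      exact Real.rpow_le_rpow (Real.rpow_nonneg hM0.le _) hyM1 ha0.le
    have h4 : B = c ^ (1 + a) * M := by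
      rw [hM]
      field_simp
    rw [h4]
    exact mul_le_mul_of_nonneg_left hyM hca.le

lemma pow_split (a c y : ℝ) (ρ : ℕ) (hc0 : 0 < c) (hy0 : 0 < y) :
    (c * y) ^ ((1 + a) * (ρ : ℝ)) = (c ^ (1 + a) * y ^ a) ^ ρ * y ^ ρ := by
  rw [Real.mul_rpow hc0.le hy0.le, mul_pow, ← Real.rpow_natCast (c ^ (1 + a)) ρ,
    ← Real.rpow_natCast (y ^ a) ρ, ← Real.rpow_mul hc0.le, ← Real.rpow_mul hy0.le, mul_assoc,
    ← Real.rpow_natCast y ρ, ← Real.rpow_add hy0]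
  congr 2
  ring

lemma nat_le_two_pow (ρ : ℕ) : (ρ : ℝ) ≤ 2 ^ ρ := by
  have h1 : ρ < 2 ^ ρ := Nat.lt_two_pow_self
  exact_mod_cast h1.le

lemma first_real (A a c y E kN : ℝ) (ρ r : ℕ) (hE : 0 < E) (hc0 : 0 < c) (hy0 : 0 < y)
    (hr4 : (r : ℝ) ≤ (A / 3 + 2) * ρ)
    (hkN : kN ≤ ρ * y ^ ρ * E ^ ρ) (hkN0 : 0 ≤ kN)
    (hB : 2 * E * (8 : ℝ) ^ (A / 3 + 2) ≤ c ^ (1 + a) * y ^ a) :
    kN * (((r : ℝ) + 1) * 4 ^ r) ≤ (c * y) ^ ((1 + a) * (ρ : ℝ)) := by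
  rw [pow_split a c y ρ hc0 hy0]
  have h5 : ((r : ℝ) + 1) * 4 ^ r ≤ 8 ^ r := by
    have h6 : r + 1 ≤ 2 ^ r := Nat.lt_two_pow_self
    have h7 : (r : ℝ) + 1 ≤ 2 ^ r := by exact_mod_cast h6
    calc ((r : ℝ) + 1) * 4 ^ r ≤ 2 ^ r * 4 ^ r := mul_le_mul_of_nonneg_right h7 (by positivity)
      _ = 8 ^ r := by
          rw [← mul_pow]
          norm_num
  have h8 : (8 : ℝ) ^ r ≤ ((8 : ℝ) ^ (A / 3 + 2)) ^ ρ := by
    rw [← Real.rpow_natCast ((8 : ℝ) ^ (A / 3 + 2)) ρ, ← Real.rpow_mul (by norm_num),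
      ← Real.rpow_natCast (8 : ℝ) r]
    exact Real.rpow_le_rpow_of_exponent_le (by norm_num) hr4
  have h9 : (0 : ℝ) ≤ (8 : ℝ) ^ (A / 3 + 2) := Real.rpow_nonneg (by norm_num) _
  calc kN * (((r : ℝ) + 1) * 4 ^ r)
      ≤ (ρ * y ^ ρ * E ^ ρ) * ((8 : ℝ) ^ (A / 3 + 2)) ^ ρ :=
        mul_le_mul hkN (h5.trans h8) (by positivity) (hkN0.trans hkN)
    _ ≤ (2 ^ ρ * y ^ ρ * E ^ ρ) * ((8 : ℝ) ^ (A / 3 + 2)) ^ ρ := by
        apply mul_le_mul_of_nonneg_right _ (pow_nonneg h9 _)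
        apply mul_le_mul_of_nonneg_right _ (pow_nonneg hE.le _)
        exact mul_le_mul_of_nonneg_right (nat_le_two_pow ρ) (pow_nonneg hy0.le _)
    _ = (2 * E * (8 : ℝ) ^ (A / 3 + 2)) ^ ρ * y ^ ρ := by
        rw [mul_pow, mul_pow]
        ring
    _ ≤ (c ^ (1 + a) * y ^ a) ^ ρ * y ^ ρ := by
        apply mul_le_mul_of_nonneg_right _ (pow_nonneg hy0.le _)
        exact pow_le_pow_left₀ (by positivity) hB _

lemma second_real (a c y E k kN : ℝ) (ρ : ℕ) (hρ : 1 ≤ ρ) (hE : 0 < E) (hc0 : 0 < c) (hc1 : c ≤ 1)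
    (hy0 : 0 < y) (hky : k = y * ρ) (hk9 : 9 ≤ k)
    (hkN : kN ≤ ρ * y ^ ρ * E ^ ρ) (hkN0 : 0 ≤ kN)
    (hB : 18 / c * 4 * E ≤ c ^ (1 + a) * y ^ a) :
    (8 * k + 10) * kN < (c * y) ^ ((1 + a) * (ρ : ℝ) + 1) := by
  have hcy : 0 < c * y := mul_pos hc0 hy0
  have hρ0 : (0 : ℝ) < ρ := by exact_mod_cast hρ
  rw [Real.rpow_add hcy, Real.rpow_one, pow_split a c y ρ hc0 hy0]
  have h5 : (8 * k + 10) ≤ 18 * (y * ρ) := by
    rw [← hky]
    linarith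
  have h6 : (ρ : ℝ) ^ 2 < 4 ^ ρ := by
    have h7 : ρ < 2 ^ ρ := Nat.lt_two_pow_self
    have h8 : (ρ : ℝ) < 2 ^ ρ := by exact_mod_cast h7
    have h9 : ((2 : ℝ) ^ ρ) ^ 2 = 4 ^ ρ := by
      rw [← pow_mul, mul_comm, pow_mul]
      norm_num
    rw [← h9]
    exact pow_lt_pow_left₀ h8 hρ0.le (by norm_num)
  have h10 : 1 ≤ 18 / c := by
    rw [le_div_iff₀ hc0]
    linarith
  have hyρ : 0 < y ^ ρ := pow_pos hy0 _
  have hEρ : 0 < E ^ ρ := pow_pos hE _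
  calc (8 * k + 10) * kN
      ≤ (18 * (y * ρ)) * (ρ * y ^ ρ * E ^ ρ) := mul_le_mul h5 hkN hkN0 (by positivity)
    _ = (18 * ρ ^ 2 * E ^ ρ) * y ^ ρ * y := by ring
    _ < (18 * 4 ^ ρ * E ^ ρ) * y ^ ρ * y := by
        apply mul_lt_mul_of_pos_right _ hy0
        apply mul_lt_mul_of_pos_right _ hyρ
        apply mul_lt_mul_of_pos_right _ hEρ
        linarith
    _ = (18 / c * 4 ^ ρ * E ^ ρ) * y ^ ρ * (c * y) := by
        field_simp
    _ ≤ ((18 / c) ^ ρ * 4 ^ ρ * E ^ ρ) * y ^ ρ * (c * y) := by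
        have h11 : 18 / c ≤ (18 / c) ^ ρ := le_self_pow₀ h10 (by omega)
        apply mul_le_mul_of_nonneg_right _ hcy.le
        apply mul_le_mul_of_nonneg_right _ hyρ.le
        apply mul_le_mul_of_nonneg_right _ hEρ.le
        exact mul_le_mul_of_nonneg_right h11 (by positivity)
    _ = (18 / c * 4 * E) ^ ρ * y ^ ρ * (c * y) := by
        rw [mul_pow, mul_pow]
    _ ≤ (c ^ (1 + a) * y ^ a) ^ ρ * y ^ ρ * (c * y) := by
        apply mul_le_mul_of_nonneg_right _ hcy.le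
        apply mul_le_mul_of_nonneg_right _ hyρ.le
        exact pow_le_pow_left₀ (by positivity) hB _

/-- the number `r` -/
lemma choose_r (A : ℝ) (hA : 3 < A) (c y : ℝ) (hc : c = 1 / (2 * (A + 6))) (k ρ : ℕ) (hρ : 1 ≤ ρ)
    (hky : (k : ℝ) = y * ρ) (hk9 : 9 ≤ k) (hy0 : 0 < y) (hcy : 1 ≤ c * y) :
    ∃ r : ℕ, 3 ≤ r ∧ 3 * r ≤ ⌊A * ρ⌋₊ + 6 ∧ (r : ℝ) ≤ (A / 3 + 2) * ρ ∧
      (1 + (A - 3) / 3) * ρ + 1 ≤ r ∧ 2 * (c * y) ≤ (((k - 2) / 2 : ℕ) : ℝ) / r ∧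
      2 * r ≤ (k - 2) / 2 := by
  have hρ1 : (1 : ℝ) ≤ ρ := by exact_mod_cast hρ
  obtain ⟨f, hf⟩ : ∃ f : ℕ, f = ⌊A * ρ⌋₊ := ⟨_, rfl⟩
  have hAρ : 0 ≤ A * ρ := by positivity
  have hf1 : (f : ℝ) ≤ A * ρ := by rw [hf]; exact Nat.floor_le hAρ
  have hf2 : A * ρ < f + 1 := by rw [hf]; exact Nat.lt_floor_add_one _
  rw [← hf]
  obtain ⟨r, hr⟩ : ∃ r : ℕ, r = (f + 6) / 3 := ⟨_, rfl⟩
  have hr2 : 3 * r ≤ f + 6 := by omega
  have hr3 : f + 4 ≤ 3 * r := by omega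
  have hr2' : 3 * (r : ℝ) ≤ f + 6 := by exact_mod_cast hr2
  have hr3' : (f : ℝ) + 4 ≤ 3 * r := by exact_mod_cast hr3
  have hAA : A ≤ A * ρ := le_mul_of_one_le_right (by linarith) hρ1
  have hr1 : 3 ≤ r := by
    have h1 : (2 : ℝ) < r := by linarith
    exact_mod_cast h1
  have hr0 : (0 : ℝ) < r := by
    have : 0 < r := by omega
    exact_mod_cast this
  have hr4 : (r : ℝ) ≤ (A / 3 + 2) * ρ := by
    have h1 : (A / 3 + 2) * (ρ : ℝ) = A * ρ / 3 + 2 * ρ := by ring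
    rw [h1]
    linarith
  have hsr : 2 * (c * y) ≤ (((k - 2) / 2 : ℕ) : ℝ) / r := by
    rw [le_div_iff₀ hr0]
    have h1 : 2 * (c * y) * r ≤ 2 * (c * y) * ((A / 3 + 2) * ρ) := by
      apply mul_le_mul_of_nonneg_left hr4
      linarith
    have h2 : 2 * (c * y) * ((A / 3 + 2) * ρ) = k / 3 := by
      rw [hky, hc]
      field_simp
      ring
    have hs1 : k ≤ 3 * ((k - 2) / 2) := by omega
    have hs1' : (k : ℝ) ≤ 3 * (((k - 2) / 2 : ℕ) : ℝ) := by exact_mod_cast hs1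
    linarith
  refine ⟨r, hr1, hr2, hr4, ?_, hsr, ?_⟩
  · have h1 : (1 + (A - 3) / 3) * (ρ : ℝ) + 1 = A * ρ / 3 + 1 := by ring
    rw [h1]
    linarith
  · have h1 : 2 ≤ (((k - 2) / 2 : ℕ) : ℝ) / r := by linarith
    rw [le_div_iff₀ hr0] at h1
    exact_mod_cast h1

theorem thm3c_num (A : ℝ) (hA : 3 < A) : ∃ K : ℕ, 1 ≤ K ∧ ∀ k ρ : ℕ, 1 ≤ ρ → K * ρ ≤ k →
    ∃ r, 3 ≤ r ∧ 3 * r ≤ ⌊A * ρ⌋₊ + 6 ∧ 4 * r + 2 ≤ k ∧
      (k * ∑ j ∈ range ρ, (k - 2).choose j) * ∑ j ∈ range (r + 1), ((k - 2) / 2).choose j ≤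
        ∑ j ∈ range (2 * r), ((k - 2) / 2).choose j ∧
      (8 * k + 10) * (k * ∑ j ∈ range ρ, (k - 2).choose j) < ((k - 2) / 2).choose r := by
  obtain ⟨a, ha⟩ : ∃ a : ℝ, a = (A - 3) / 3 := ⟨_, rfl⟩
  have ha0 : 0 < a := by rw [ha]; linarith
  obtain ⟨c, hc⟩ : ∃ c : ℝ, c = 1 / (2 * (A + 6)) := ⟨_, rfl⟩
  have hA6 : 0 < 2 * (A + 6) := by linarith
  have hc0 : 0 < c := by rw [hc]; positivity
  have hc1 : c ≤ 1 := by
    rw [hc, div_le_one hA6]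
    linarith
  obtain ⟨E, hE⟩ : ∃ E : ℝ, E = Real.exp 1 := ⟨_, rfl⟩
  have hE0 : 0 < E := by rw [hE]; exact Real.exp_pos 1
  have h8 : 0 < (8 : ℝ) ^ (A / 3 + 2) := Real.rpow_pos_of_pos (by norm_num) _
  obtain ⟨K, hK, hKy⟩ := choose_K a c ((18 / c) * 4 * E + 2 * E * (8 : ℝ) ^ (A / 3 + 2)) ha0 hc0
    (by positivity)
  refine ⟨K, hK, ?_⟩
  intro k ρ hρ hk
  have hρ0 : (0 : ℝ) < ρ := by exact_mod_cast hρ
  have hρ1 : (1 : ℝ) ≤ ρ := by exact_mod_cast hρ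
  obtain ⟨y, hy⟩ : ∃ y : ℝ, y = (k : ℝ) / ρ := ⟨_, rfl⟩
  have hyK : (K : ℝ) ≤ y := by
    rw [hy, le_div_iff₀ hρ0]
    exact_mod_cast hk
  obtain ⟨hy9, hcy, hB⟩ := hKy y hyK
  have hy0 : 0 < y := by linarith
  have hky : (k : ℝ) = y * ρ := by
    rw [hy]
    field_simp
  have hk9' : (9 : ℝ) ≤ k := by
    rw [hky]
    have := mul_le_mul hy9 hρ1 (by norm_num) hy0.le
    linarith
  have hk9 : 9 ≤ k := by exact_mod_cast hk9'
  have hρk : ρ ≤ k := (Nat.le_mul_of_pos_left ρ (by omega)).trans hk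
  obtain ⟨r, hr1, hr2, hr4, hr5, hsr, hrs⟩ := choose_r A hA c y hc k ρ hρ hky hk9 hy0 hcy
  rw [← ha] at hr5
  obtain ⟨s, hs⟩ : ∃ s : ℕ, s = (k - 2) / 2 := ⟨_, rfl⟩
  rw [← hs] at hsr hrs ⊢
  have hN := sum_choose_le (k - 2) k ρ hρ hρk (by omega)
  obtain ⟨N, hNdef⟩ : ∃ N : ℕ, N = ∑ j ∈ range ρ, (k - 2).choose j := ⟨_, rfl⟩
  rw [← hNdef] at hN ⊢
  have hkN : (k : ℝ) * N ≤ ρ * y ^ ρ * E ^ ρ := by
    have hypow : y ^ (ρ - 1) * y = y ^ ρ := by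
      rw [← pow_succ]
      congr 1
      omega
    have hexp : Real.exp (ρ : ℝ) = E ^ ρ := by
      rw [hE, ← Real.exp_nat_mul]
      simp
    rw [← hy] at hN
    calc (k : ℝ) * N ≤ k * (y ^ (ρ - 1) * Real.exp ρ) :=
          mul_le_mul_of_nonneg_left hN (Nat.cast_nonneg _)
      _ = ρ * y ^ ρ * E ^ ρ := by
          rw [← hypow, hexp, hky]
          ring
  have hkN0 : (0 : ℝ) ≤ (k : ℝ) * N := by positivity
  have hr0 : (0 : ℝ) < r := by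
    have : 0 < r := by omega
    exact_mod_cast this
  have hr3' : (3 : ℝ) ≤ r := by exact_mod_cast hr1
  have hBs : 0 ≤ 2 * E * (8 : ℝ) ^ (A / 3 + 2) := by positivity
  have hBt : 0 ≤ 18 / c * 4 * E := by positivity
  refine ⟨r, hr1, hr2, by omega, ?_, ?_⟩
  · -- first inequality
    apply ratio_nat s r _ (by omega) hrs
    have h1 := div_pow_le_choose (s - r) (r - 1) (by omega) (by omega)
    have h2 : c * y ≤ (((s - r : ℕ) : ℝ)) / ((r - 1 : ℕ) : ℝ) := by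
      have e1 : ((s - r : ℕ) : ℝ) = (s : ℝ) - r := by
        rw [Nat.cast_sub (by omega)]
      have e2 : ((r - 1 : ℕ) : ℝ) = (r : ℝ) - 1 := by
        rw [Nat.cast_sub (by omega)]
        simp
      have h3 : (0 : ℝ) < (r : ℝ) - 1 := by linarith
      rw [e1, e2, le_div_iff₀ h3]
      rw [le_div_iff₀ hr0] at hsr
      have h4 : c * y * ((r : ℝ) - 1) ≤ c * y * r := by
        apply mul_le_mul_of_nonneg_left _ (by linarith)
        linarith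
      have h5 : 2 * (r : ℝ) ≤ s := by exact_mod_cast hrs
      linarith
    have h3 : (c * y) ^ ((1 + a) * ρ) ≤ (c * y) ^ (r - 1) := by
      rw [← Real.rpow_natCast (c * y) (r - 1)]
      apply Real.rpow_le_rpow_of_exponent_le hcy
      rw [Nat.cast_sub (by omega)]
      push_cast
      linarith
    have h4 : ((k * N * (r + 1) * 4 ^ r : ℕ) : ℝ) ≤ (((s - r).choose (r - 1) : ℕ) : ℝ) := by
      refine le_trans ?_ h1
      refine le_trans ?_ (pow_le_pow_left₀ (by linarith) h2 _)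
      refine le_trans ?_ h3
      have h5 := first_real A a c y E ((k : ℝ) * N) ρ r hE0 hc0 hy0 hr4 hkN hkN0 (by linarith)
      push_cast
      refine le_trans (le_of_eq ?_) h5
      ring
    exact_mod_cast h4
  · -- second inequality
    have h1 := div_pow_le_choose s r (by omega) (by omega)
    have h2 : c * y ≤ (s : ℝ) / r := by linarith
    have h3 : (c * y) ^ ((1 + a) * ρ + 1) ≤ (c * y) ^ r := by
      rw [← Real.rpow_natCast (c * y) r]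
      exact Real.rpow_le_rpow_of_exponent_le hcy hr5
    have h4 : (((8 * k + 10) * (k * N) : ℕ) : ℝ) < ((s.choose r : ℕ) : ℝ) := by
      refine lt_of_lt_of_le ?_ h1
      refine lt_of_lt_of_le ?_ (pow_le_pow_left₀ (by linarith) h2 _)
      refine lt_of_lt_of_le ?_ h3
      push_cast
      exact second_real a c y E k ((k : ℝ) * N) ρ hρ hE0 hc0 hc1 hy0 hky hk9' hkN hkN0
        (by linarith)
    exact_mod_cast h4

end MZG
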