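import Pool.Agent.Lib.MP_e54452_nt.VV.D1
import Pool.Agent.Lib.MP_e54452_nt.VV.D2
import Pool.Agent.Lib.MP_e54452_nt.VV.D4
import Pool.Agent.Lib.MP_e54452_nt.TH.Growth3
import Pool.Agent.Lib.MP_e54452_nt.DF.N8

/-!
# The depth filtration, second version: the theorems
-/

set_option autoImplicit false

namespace MZG

open Finset Module
open scoped ENNReal Nat Polynomial

theorem DW_mono2 (R : ℕ) {W W' : ℕ} (h : W ≤ W') : MPe54452.DW R W ≤ MPe54452.DW R W' := by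
  unfold MPe54452.DW
  apply Submodule.span_mono
  rintro x ⟨l, hl, hs, hr, rfl⟩
  exact ⟨l, hl, hs.trans h, hr, rfl⟩

/-- the basic inequality in a single weight -/
theorem depthB (r t k : ℕ) (hk : 2 ≤ k)
    (h : ((k - 1) * finrank ℚ (MPe54452.DZ (r + t + 1) k)) *
      ∑ j ∈ range (r + 1), ((k - 2) / 2).choose j ≤ ∑ j ∈ range (t + 2), ((k - 2) / 2).choose j) :
    ((k - 2) / 2).choose r ≤
      (8 * (k - 2) + 10) * ((k - 1) * finrank ℚ (MPe54452.DZ (r + t + 1) k)) := by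
  obtain ⟨W, rfl⟩ : ∃ W, k = W + 2 := ⟨k - 2, by omega⟩
  have e0 : W + 2 - 2 = W := by omega
  have e1 : W + 2 - 1 = W + 1 := by omega
  rw [e0, e1] at h ⊢
  haveI := DW_finite (r + t) W
  have h1 : finrank ℚ (MPe54452.DW (r + t) (W / 2 + W / 2)) ≤
      (W + 1) * finrank ℚ (MPe54452.DZ (r + t + 1) (W + 2)) :=
    (Submodule.finrank_mono (DW_mono2 (r + t) (by omega))).trans (DW_finrank_le (r + t) W)
  have h2 := depthA (W / 2) (W / 2) r t ((Nat.mul_le_mul_right _ h1).trans h)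
  refine h2.trans ?_
  exact Nat.mul_le_mul (by omega) h1

/-- arithmetic common to the next two theorems -/
theorem explicit_aux (q s T B : ℕ) (hs : 2 * q + 2 ≤ s)
    (hA : T * ∑ j ∈ range (q + 1 + 1), s.choose j ≤ ∑ j ∈ range (2 * q + 2), s.choose j →
      s.choose (q + 1) ≤ B * T) (hB : B ≤ 26 * s) :
    (s - q - 1).choose q ≤ 26 * 8 ^ q * T := by
  by_contra hcon
  push Not at hcon
  have h8 : (8 : ℕ) ^ q = 2 ^ q * 4 ^ q := by
    rw [← mul_pow]
    norm_num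
  have h2q : q + 1 ≤ 2 ^ q := Nat.lt_two_pow_self
  have h4q : 1 ≤ 4 ^ q := Nat.one_le_pow _ _ (by norm_num)
  have e1 : T * (q + 1 + 1) * 4 ^ (q + 1) ≤ (s - (q + 1)).choose (q + 1 - 1) := by
    have h1 : T * (q + 1 + 1) * 4 ^ (q + 1) ≤ 26 * 8 ^ q * T := by
      rw [h8, pow_succ]
      have h3 : (q + 1 + 1) * 4 ≤ 26 * 2 ^ q := by omega
      calc T * (q + 1 + 1) * (4 ^ q * 4) = T * 4 ^ q * ((q + 1 + 1) * 4) := by ring
        _ ≤ T * 4 ^ q * (26 * 2 ^ q) := Nat.mul_le_mul_left _ h3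
        _ = _ := by ring
    have e2 : s - (q + 1) = s - q - 1 := by omega
    rw [e2, Nat.add_sub_cancel]
    omega
  have h1 := hA (by
    have := ratio_nat s (q + 1) T (by omega) (by omega) e1
    have e3 : 2 * (q + 1) = 2 * q + 2 := by ring
    rw [e3] at this
    exact this)
  -- `(q+1) C(s,q+1) = s C(s-1,q)`
  obtain ⟨s', rfl⟩ : ∃ s', s = s' + 1 := ⟨s - 1, by omega⟩
  have h3 : (s' + 1) * s'.choose q = (s' + 1).choose (q + 1) * (q + 1) := Nat.add_one_mul_choose_eq s' q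
  have h4 : (s' + 1 - q - 1).choose q ≤ s'.choose q := Nat.choose_le_choose q (by omega)
  have h5 : (s' + 1) * (s' + 1 - q - 1).choose q ≤ (s' + 1) * (26 * 8 ^ q * T) := by
    calc (s' + 1) * (s' + 1 - q - 1).choose q ≤ (s' + 1) * s'.choose q := Nat.mul_le_mul_left _ h4
      _ = (s' + 1).choose (q + 1) * (q + 1) := h3
      _ ≤ (B * T) * (q + 1) := Nat.mul_le_mul_right _ h1
      _ ≤ (26 * (s' + 1) * T) * (q + 1) := by gcongr
      _ ≤ (26 * (s' + 1) * T) * 8 ^ q := by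
          apply Nat.mul_le_mul_left
          rw [h8]
          nlinarith
      _ = _ := by ring
  have h6 := Nat.le_of_mul_le_mul_left h5 (by omega)
  omega

/-- explicit lower bound, weight at most `2s` -/
theorem explicit1 (q s : ℕ) (hs : 2 * q + 2 ≤ s) :
    (s - q - 1).choose q ≤ 26 * 8 ^ q * finrank ℚ (MPe54452.DW (3 * q + 1) (2 * s)) := by
  refine explicit_aux q s _ (8 * (s + s) + 10) hs ?_ (by omega)
  intro h
  have e1 : q + 1 + 2 * q = 3 * q + 1 := by ring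
  have e2 : s + s = 2 * s := by ring
  have h1 := depthA s s (q + 1) (2 * q)
  rw [e1, e2] at h1
  rw [e2]
  exact h1 h

/-- explicit lower bound in a single weight -/
theorem explicit2 (q k : ℕ) (hk : 4 * q + 6 ≤ k) :
    ((k - 2) / 2 - q - 1).choose q ≤
      26 * 8 ^ q * ((k - 1) * finrank ℚ (MPe54452.DZ (3 * q + 2) k)) := by
  refine explicit_aux q ((k - 2) / 2) _ (8 * (k - 2) + 10) (by omega) ?_ (by omega)
  intro h
  have e1 : q + 1 + 2 * q + 1 = 3 * q + 2 := by ring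
  have h1 := depthB (q + 1) (2 * q) k (by omega)
  rw [e1] at h1
  exact h1 h

theorem depth3c (A : ℝ) (hA : 3 < A) : ∃ K : ℕ, 1 ≤ K ∧ ∀ k ρ : ℕ, 1 ≤ ρ → K * ρ ≤ k →
    {l : List ℕ | MPe54452.Adm l ∧ l.sum = k ∧ l.length ≤ ρ}.ncard <
      finrank ℚ (MPe54452.DZ (⌊A * ρ⌋₊ + 5) k) := by
  obtain ⟨K, hK, h⟩ := thm3c_num A hA
  refine ⟨K, hK, fun k ρ hρ hk => ?_⟩
  obtain ⟨r, hr, hrA, hrk, hi, hii⟩ := h k ρ hρ hk
  rw [(ncard_adm k ρ (by omega)).2]
  haveI := DZ_finite (⌊A * ρ⌋₊ + 5) k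
  have e : r + (2 * r - 2) + 1 = 3 * r - 1 := by omega
  have h2 : finrank ℚ (MPe54452.DZ (r + (2 * r - 2) + 1) k) ≤
      finrank ℚ (MPe54452.DZ (⌊A * ρ⌋₊ + 5) k) :=
    Submodule.finrank_mono (DZ_mono (by omega) k)
  refine lt_of_lt_of_le ?_ h2
  by_contra hcon
  push Not at hcon
  have h3 : (k - 1) * finrank ℚ (MPe54452.DZ (r + (2 * r - 2) + 1) k) ≤
      k * ∑ j ∈ range ρ, (k - 2).choose j := Nat.mul_le_mul (by omega) hcon
  have e2 : 2 * r - 2 + 2 = 2 * r := by omega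
  have h4 := depthB r (2 * r - 2) k (by omega) (by
    rw [e2]
    exact (Nat.mul_le_mul_right _ h3).trans hi)
  have h5 : (8 * (k - 2) + 10) * ((k - 1) * finrank ℚ (MPe54452.DZ (r + (2 * r - 2) + 1) k)) ≤
      (8 * k + 10) * (k * ∑ j ∈ range ρ, (k - 2).choose j) := Nat.mul_le_mul (by omega) h3
  omega

theorem depth4c : ∃ k0 : ℕ, ∀ k ≥ k0, MPe54452.DZ (k / 17) k ≠ MPe54452.Z k := by
  obtain ⟨k0, hk0, h⟩ := thm17_num
  refine ⟨k0, fun k hk heq => ?_⟩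
  have h1 := h k hk
  have h2 := cube_Z k (hk0.trans hk)
  have h3 := finrank_DZ_le k (k / 17) (hk0.trans hk)
  rw [heq] at h3
  have h4 : 4096 * k ^ 5 * finrank ℚ (MPe54452.Z k) ^ 3 ≤
      4096 * k ^ 5 * (∑ j ∈ range (k / 17), (k - 2).choose j) ^ 3 :=
    Nat.mul_le_mul_left _ (Nat.pow_le_pow_left h3 3)
  omega

end MZG
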