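import Pool.Agent.Lib.MP_e54452_nt.DG.RkB
import Pool.Agent.Lib.MP_e54452_nt.DG.RkC
import Pool.Agent.Lib.MP_e54452_nt.DG.RkD

/-!
# Subspaces stable under a nilpotent connection are constant
-/

set_option autoImplicit false

open Polynomial Module

namespace MPe54452.Exp3

open MPe54452.Exp (KK pe DK gam gb DK_mul DK_pe DK_noAnti DK_eq_zero rk9_DK_one)

/-- the constant vectors in a subspace -/
def cons {ι : Type} (S : Submodule KK (ι → KK)) : Set (ι → KK) :=
  {c | c ∈ S ∧ ∀ i, DK (c i) = 0}

/-- a `D`-stable subspace is spanned by its constant vectors -/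
theorem dspan {ι : Type} [Fintype ι] [DecidableEq ι] (S : Submodule KK (ι → KK))
    (hS : ∀ z ∈ S, (fun i => DK (z i)) ∈ S) : ∀ z ∈ S, z ∈ Submodule.span KK (cons S) := by
  classical
  have key : ∀ N : ℕ, ∀ z ∈ S, (Finset.univ.filter fun i => z i ≠ 0).card ≤ N →
      z ∈ Submodule.span KK (cons S) := by
    intro N
    induction N with
    | zero =>
      intro z hz hc
      have hz0 : z = 0 := by
        funext i
        by_contra hi
        have : i ∈ Finset.univ.filter fun i => z i ≠ 0 :=
          Finset.mem_filter.mpr ⟨Finset.mem_univ _, hi⟩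
        have h2 := Finset.card_pos.mpr ⟨i, this⟩
        omega
      rw [hz0]
      exact Submodule.zero_mem _
    | succ N ih =>
      intro z hz hc
      by_cases hz0 : z = 0
      · rw [hz0]; exact Submodule.zero_mem _
      -- nonzero vectors with support inside the support of `z`, of minimal support
      let Pr : ℕ → Prop := fun m => ∃ y ∈ S, y ≠ 0 ∧ (∀ i, z i = 0 → y i = 0) ∧
        (Finset.univ.filter fun i => y i ≠ 0).card = m
      have hex : ∃ m, Pr m := ⟨_, z, hz, hz0, fun i hi => hi, rfl⟩
      obtain ⟨y, hy, hy0, hyz, hym⟩ := Nat.find_spec hex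
      obtain ⟨i0, hi0⟩ : ∃ i, y i ≠ 0 := by
        by_contra hcon
        push Not at hcon
        exact hy0 (funext hcon)
      let x : ι → KK := (y i0)⁻¹ • y
      have hxS : x ∈ S := S.smul_mem _ hy
      have hxv : ∀ i, x i = (y i0)⁻¹ * y i := fun i => rfl
      have hx1 : x i0 = 1 := by rw [hxv]; exact inv_mul_cancel₀ hi0
      have hxD : ∀ i, DK (x i) = 0 := by
        by_contra hcon
        push Not at hcon
        obtain ⟨i1, hi1⟩ := hcon
        have hD : (fun i => DK (x i)) ∈ S := hS x hxS
        have hDne : (fun i => DK (x i)) ≠ 0 := fun h0 => hi1 (congrFun h0 i1)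
        have hsub : ∀ i, y i = 0 → DK (x i) = 0 := by
          intro i hi
          rw [hxv, hi, mul_zero, map_zero]
        have hlt : (Finset.univ.filter fun i => DK (x i) ≠ 0).card <
            (Finset.univ.filter fun i => y i ≠ 0).card := by
          apply Finset.card_lt_card
          rw [Finset.ssubset_iff_of_subset]
          · refine ⟨i0, Finset.mem_filter.mpr ⟨Finset.mem_univ _, hi0⟩, ?_⟩
            rw [Finset.mem_filter]
            rintro ⟨_, h⟩
            exact h (by rw [hx1, rk9_DK_one])
          · intro i hi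
            rw [Finset.mem_filter] at hi ⊢
            exact ⟨hi.1, fun h => hi.2 (hsub i h)⟩
        rw [hym] at hlt
        exact Nat.find_min hex hlt ⟨_, hD, hDne, fun i hi => hsub i (hyz i hi), rfl⟩
      have hxc : x ∈ cons S := ⟨hxS, hxD⟩
      have hw : z - z i0 • x ∈ S := S.sub_mem hz (S.smul_mem _ hxS)
      have hcard : (Finset.univ.filter fun i => (z - z i0 • x) i ≠ 0).card ≤ N := by
        have hlt : (Finset.univ.filter fun i => (z - z i0 • x) i ≠ 0).card <
            (Finset.univ.filter fun i => z i ≠ 0).card := by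
          apply Finset.card_lt_card
          rw [Finset.ssubset_iff_of_subset]
          · refine ⟨i0, Finset.mem_filter.mpr ⟨Finset.mem_univ _, fun h => hi0 (hyz i0 h)⟩, ?_⟩
            rw [Finset.mem_filter]
            rintro ⟨_, h⟩
            apply h
            simp [hx1]
          · intro i hi
            rw [Finset.mem_filter] at hi ⊢
            refine ⟨hi.1, fun h => hi.2 ?_⟩
            have h2 : x i = 0 := by rw [hxv, hyz i h, mul_zero]
            simp [h, h2]
        omega
      have h1 := ih _ hw hcard
      have h2 : z = (z - z i0 • x) + z i0 • x := by simp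
      rw [h2]
      exact Submodule.add_mem _ h1 (Submodule.smul_mem _ _ (Submodule.subset_span hxc))
  intro z hz
  exact key _ z hz le_rfl

/-- `D` and the connection stabilise `S`: so do the residues -/
theorem nstable {ι : Type} [Fintype ι] (N : Bool → ι → ι → ℚ) (S : Submodule KK (ι → KK))
    (hS : ∀ z ∈ S, (fun i => DK (z i) - ∑ j, pe (gam false) * (pe (C (N false i j)) * z j) -
      ∑ j, pe (gam true) * (pe (C (N true i j)) * z j)) ∈ S)
    (hD : ∀ z ∈ S, (fun i => DK (z i)) ∈ S) (a : Bool) :
    ∀ z ∈ S, (fun i => ∑ j, pe (C (N a i j)) * z j) ∈ S := by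
  intro z hz
  let E : Bool → (ι → KK) → (ι → KK) := fun b y i => ∑ j, pe (C (N b i j)) * y j
  -- `pe X • E false z + pe (1 - X) • E true z ∈ S`
  have h1 : ∀ y ∈ S, pe (gam false) • E false y + pe (gam true) • E true y ∈ S := by
    intro y hy
    have h := S.sub_mem (hD y hy) (hS y hy)
    refine (congrArg (· ∈ S) ?_).mp h
    funext i
    simp only [Pi.sub_apply, Pi.add_apply, Pi.smul_apply, smul_eq_mul, E, Finset.mul_sum]
    ring
  have hDE : ∀ b, (fun i => DK (E b z i)) = E b (fun j => DK (z j)) := by
    intro b
    funext i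
    simp only [E, map_sum, DK_mul]
    refine Finset.sum_congr rfl fun j _ => ?_
    rw [DK_pe]
    simp
  have h2 : pe (X * (1 - X)) • (E false z - E true z) ∈ S := by
    have h3 := hD _ (h1 z hz)
    have h4 := h1 _ (hD z hz)
    have h5 := S.sub_mem h3 h4
    refine (congrArg (· ∈ S) ?_).mp h5
    funext i
    have e0 := congrFun (hDE false) i
    have e1 := congrFun (hDE true) i
    simp only [Pi.sub_apply, Pi.add_apply, Pi.smul_apply, smul_eq_mul, map_add, DK_mul, e0, e1,
      DK_pe]
    have g0 : derivative (gam false) = 1 := by simp [gam]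
    have g1 : derivative (gam true) = -1 := by simp [gam]
    rw [g0, g1]
    simp only [mul_one, mul_neg, map_neg]
    ring
  have hX : pe (X * (1 - X)) ≠ 0 := by
    intro h0
    have h : (X * (1 - X) : ℚ[X]) = 0 := by
      apply IsFractionRing.injective ℚ[X] KK
      rw [map_zero]
      exact h0
    have h' := congrArg (fun p : ℚ[X] => p.eval 2) h
    norm_num at h'
  have h3 : E false z - E true z ∈ S := by
    have := S.smul_mem (pe (X * (1 - X)))⁻¹ h2
    rwa [smul_smul, inv_mul_cancel₀ hX, one_smul] at this
  have h4 : E true z ∈ S := by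
    have h5 := S.sub_mem (h1 z hz) (S.smul_mem (pe (gam false)) h3)
    refine (congrArg (· ∈ S) ?_).mp h5
    funext i
    simp only [Pi.sub_apply, Pi.add_apply, Pi.smul_apply, smul_eq_mul]
    have g : pe (gam true) = 1 - pe (gam false) := by simp [gam]
    rw [g]
    ring
  cases a
  · have h5 := S.add_mem h3 h4
    rw [sub_add_cancel] at h5
    exact h5
  · exact h4

end MPe54452.Exp3
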