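import Pool.Agent.Lib.MP_e54452_nt.VV.VA

/-!
# Subspaces stable under a nilpotent connection are constant, 2
-/

set_option autoImplicit false

open Polynomial Module

namespace MPe54452.Exp3

open MPe54452.Exp (KK pe DK gam gb DK_mul DK_pe DK_noAnti DK_eq_zero rk9_DK_one)

/-- the connection -/
noncomputable def con {ι : Type} [Fintype ι] (N : Bool → ι → ι → ℚ) (z : ι → KK) : ι → KK :=
  fun i => DK (z i) - ∑ j, pe (gam false) * (pe (C (N false i j)) * z j) -
      ∑ j, pe (gam true) * (pe (C (N true i j)) * z j)

lemma const_sum {ι : Type} [Fintype ι] (r : ι → ℚ) (z : ι → KK) (hz : ∀ i, DK (z i) = 0) :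
    DK (∑ j, pe (C (r j)) * z j) = 0 := by
  rw [map_sum]
  refine Finset.sum_eq_zero fun j _ => ?_
  rw [DK_mul, hz j, DK_pe]
  simp

/-- `D f = z c₀ + (1 - z) c₁` with constants is impossible unless all is constant -/
lemma noAnti' (f c0 c1 : KK) (h0 : DK c0 = 0) (h1 : DK c1 = 0)
    (h : DK f = pe (gam false) * c0 + pe (gam true) * c1) : DK f = 0 := by
  obtain ⟨q0, rfl⟩ := DK_eq_zero c0 h0
  obtain ⟨q1, rfl⟩ := DK_eq_zero c1 h1
  have h2 : DK f = pe (C q1 * (1 - X) + C q0 * X) := by
    rw [h]
    simp only [gam, if_true, Bool.false_eq_true, if_false, map_add, map_mul, map_sub, map_one]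
    ring
  obtain ⟨e1, e2⟩ := DK_noAnti f q1 q0 h2
  rw [h, e1, e2]
  simp

theorem dstab_fin (m : ℕ) : ∀ (N : Bool → Fin m → Fin m → ℚ),
    (∀ a i j, j ≤ i → N a i j = 0) → ∀ S : Submodule KK (Fin m → KK),
    (∀ z ∈ S, con N z ∈ S) → ∀ z ∈ S, (fun i => DK (z i)) ∈ S := by
  induction m with
  | zero =>
    intro N _ S _ z _
    have : (fun i : Fin 0 => DK (z i)) = 0 := by funext i; exact i.elim0
    rw [this]
    exact S.zero_mem
  | succ m ih =>
    intro N hN S hS z hz
    classical
    let tl : (Fin (m + 1) → KK) →ₗ[KK] (Fin m → KK) :=
      { toFun := fun y i => y i.succ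
        map_add' := fun _ _ => rfl
        map_smul' := fun _ _ => rfl }
    let N' : Bool → Fin m → Fin m → ℚ := fun a i j => N a i.succ j.succ
    have hN' : ∀ a i j, j ≤ i → N' a i j = 0 := fun a i j h =>
      hN a _ _ (Fin.succ_le_succ_iff.mpr h)
    have hcon : ∀ y, tl (con N y) = con N' (tl y) := by
      intro y
      funext i
      change con N y i.succ = con N' (tl y) i
      unfold con
      rw [Fin.sum_univ_succ, Fin.sum_univ_succ, hN false i.succ 0 (Fin.zero_le _),
        hN true i.succ 0 (Fin.zero_le _)]
      simp only [map_zero, zero_mul, mul_zero, zero_add]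
      rfl
    let S' : Submodule KK (Fin m → KK) := S.map tl
    have hS' : ∀ y ∈ S', con N' y ∈ S' := by
      rintro _ ⟨y, hy, rfl⟩
      exact ⟨con N y, hS y hy, hcon y⟩
    have hD' := ih N' hN' S' hS'
    by_cases he : (Pi.single 0 1 : Fin (m + 1) → KK) ∈ S
    · -- first case
      obtain ⟨y, hy, hyt⟩ := hD' (tl z) ⟨z, hz, rfl⟩
      have h1 : (fun i => DK (z i)) = y + (DK (z 0) - y 0) • (Pi.single 0 1 : Fin (m + 1) → KK) := by
        funext i
        refine Fin.cases ?_ (fun j => ?_) i
        · simp
        · have h2 := congrFun hyt j
          change y j.succ = DK (z j.succ) at h2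
          simp [h2]
      rw [h1]
      exact S.add_mem hy (S.smul_mem _ he)
    · -- second case
      have hinj : ∀ y ∈ S, tl y = 0 → y = 0 := by
        intro y hy h0
        by_contra hne
        apply he
        have h1 : y = y 0 • (Pi.single 0 1 : Fin (m + 1) → KK) := by
          funext i
          refine Fin.cases ?_ (fun j => ?_) i
          · simp
          · have h2 : y j.succ = 0 := congrFun h0 j
            simp [h2]
        have h3 : y 0 ≠ 0 := by
          intro h4
          rw [h4, zero_smul] at h1
          exact hne h1
        have h5 := S.smul_mem (y 0)⁻¹ hy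
        rw [h1, smul_smul] at h5
        simpa [h3] using h5
      have hNst := fun a => nstable N' S' hS' hD' a
      -- constants lift to constants
      have hlift : ∀ t : ℕ, ∀ y ∈ S, (∀ i, DK (tl y i) = 0) → (∀ i : Fin m, t ≤ (i : ℕ) → tl y i = 0) →
          DK (y 0) = 0 := by
        intro t
        induction t with
        | zero =>
          intro y hy _ h0
          have : y = 0 := hinj y hy (funext fun i => h0 i (Nat.zero_le _))
          rw [this]
          simp
        | succ t iht =>
          intro y hy hyc h0
          have hl : ∀ a : Bool, ∃ w ∈ S, (tl w = fun i => ∑ j, pe (C (N' a i j)) * tl y j) ∧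
              DK (w 0) = 0 := by
            intro a
            obtain ⟨w, hw, hwt⟩ := hNst a (tl y) ⟨y, hy, rfl⟩
            refine ⟨w, hw, hwt, iht w hw ?_ ?_⟩
            · intro i
              rw [hwt]
              exact const_sum _ _ hyc
            · intro i hi
              rw [hwt]
              refine Finset.sum_eq_zero fun j _ => ?_
              by_cases hj : j ≤ i
              · rw [hN' a i j hj]; simp
              · have h2 : t + 1 ≤ (j : ℕ) := by
                  have : (i : ℕ) < j := by
                    rw [not_le] at hj
                    exact hj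
                  omega
                rw [h0 j h2, mul_zero]
          obtain ⟨w0, hw0, ht0, hc0⟩ := hl false
          obtain ⟨w1, hw1, ht1, hc1⟩ := hl true
          have hz1 : con N y + (pe (gam false) • w0 + pe (gam true) • w1) = 0 := by
            refine hinj _ (S.add_mem (hS y hy) (S.add_mem (S.smul_mem _ hw0) (S.smul_mem _ hw1))) ?_
            rw [map_add, map_add, map_smul, map_smul, hcon, ht0, ht1]
            funext i
            simp only [Pi.add_apply, Pi.smul_apply, smul_eq_mul, con, hyc i, Finset.mul_sum,
              Pi.zero_apply]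
            ring
          have h3 := congrFun hz1 0
          simp only [Pi.add_apply, Pi.smul_apply, smul_eq_mul, con, Pi.zero_apply] at h3
          have key : DK (y 0) = pe (gam false) * (∑ j, pe (C (N false 0 j)) * y j - w0 0) +
              pe (gam true) * (∑ j, pe (C (N true 0 j)) * y j - w1 0) := by
            rw [mul_sub, mul_sub, Finset.mul_sum, Finset.mul_sum]
            linear_combination h3
          refine noAnti' _ _ _ ?_ ?_ key
          · rw [map_sub, hc0, sub_zero, Fin.sum_univ_succ, hN false 0 0 le_rfl]
            simp only [map_zero, zero_mul, zero_add]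
            exact const_sum _ _ hyc
          · rw [map_sub, hc1, sub_zero, Fin.sum_univ_succ, hN true 0 0 le_rfl]
            simp only [map_zero, zero_mul, zero_add]
            exact const_sum _ _ hyc
      -- `S` is spanned by its constants
      have hsp : ∀ y' ∈ Submodule.span KK (cons S'), ∃ y ∈ Submodule.span KK (cons S), tl y = y' := by
        intro y' hy'
        induction hy' using Submodule.span_induction with
        | mem x hx =>
          obtain ⟨⟨y, hy, hyx⟩, hxc⟩ := hx
          have h1 : ∀ i, DK (tl y i) = 0 := by
            intro i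
            rw [hyx]
            exact hxc i
          have h2 := hlift m y hy h1 (fun i hi => absurd i.2 (by omega))
          refine ⟨y, Submodule.subset_span ⟨hy, ?_⟩, hyx⟩
          intro i
          refine Fin.cases h2 (fun j => h1 j) i
        | zero => exact ⟨0, Submodule.zero_mem _, map_zero _⟩
        | add x y _ _ hx hy =>
          obtain ⟨x', hx', rfl⟩ := hx
          obtain ⟨y', hy', rfl⟩ := hy
          exact ⟨x' + y', Submodule.add_mem _ hx' hy', map_add _ _ _⟩
        | smul a x _ hx =>
          obtain ⟨x', hx', rfl⟩ := hx
          exact ⟨a • x', Submodule.smul_mem _ _ hx', map_smul _ _ _⟩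
      have hle : Submodule.span KK (cons S) ≤ S := Submodule.span_le.mpr fun x hx => hx.1
      have hz2 : z ∈ Submodule.span KK (cons S) := by
        obtain ⟨y, hy, hyt⟩ := hsp (tl z) (dspan S' hD' _ ⟨z, hz, rfl⟩)
        have h1 := hinj (z - y) (S.sub_mem hz (hle hy)) (by rw [map_sub, hyt, sub_self])
        rw [sub_eq_zero.mp h1]
        exact hy
      have hfin : ∀ y ∈ Submodule.span KK (cons S), (fun i => DK (y i)) ∈ S := by
        intro y hy
        induction hy using Submodule.span_induction with
        | mem x hx =>
          have : (fun i => DK (x i)) = 0 := funext hx.2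
          rw [this]
          exact S.zero_mem
        | zero =>
          have : (fun i : Fin (m + 1) => DK ((0 : Fin (m + 1) → KK) i)) = 0 := by
            funext i; simp
          rw [this]
          exact S.zero_mem
        | add x y _ _ hx hy =>
          have : (fun i => DK ((x + y) i)) = (fun i => DK (x i)) + fun i => DK (y i) := by
            funext i; simp
          rw [this]
          exact S.add_mem hx hy
        | smul a x hx' hx =>
          have : (fun i => DK ((a • x) i)) = DK a • x + a • fun i => DK (x i) := by
            funext i; simp [DK_mul]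
          rw [this]
          exact S.add_mem (S.smul_mem _ (hle hx')) (S.smul_mem _ hx)
      exact hfin z hz2

end MPe54452.Exp3
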