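import Pool.Agent.Lib.MP_e54452_nt.VV.VB

/-!
# Subspaces stable under a nilpotent connection are constant, general index sets
-/

set_option autoImplicit false

open Polynomial Module

namespace MPe54452.Exp3

open MPe54452.Exp (KK pe DK gam gb DK_mul DK_pe DK_noAnti DK_eq_zero rk9_DK_one)

lemma exists_sorted {ι : Type} [Fintype ι] (len : ι → ℕ) :
    ∃ e : ι ≃ Fin (Fintype.card ι), ∀ i j, len i < len j → e i < e j := by
  let σ := Fintype.equivFin ι
  let f : Fin (Fintype.card ι) → ℕ := fun i => len (σ.symm i)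
  let τ := Tuple.sort f
  have hm : Monotone (f ∘ τ) := Tuple.monotone_sort f
  refine ⟨σ.trans τ.symm, fun i j hij => ?_⟩
  by_contra hcon
  rw [not_lt] at hcon
  have h1 := hm hcon
  simp only [f, Function.comp_apply, Equiv.trans_apply, Equiv.apply_symm_apply,
    Equiv.symm_apply_apply] at h1
  omega

theorem dstab {ι : Type} [Fintype ι] [DecidableEq ι] (N : Bool → ι → ι → ℚ) (len : ι → ℕ)
    (hN : ∀ a i j, N a i j ≠ 0 → len i < len j) (S : Submodule KK (ι → KK))
    (hS : ∀ z ∈ S, con N z ∈ S) : ∀ z ∈ S, (fun i => DK (z i)) ∈ S := by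
  obtain ⟨e, he⟩ := exists_sorted len
  let L : (ι → KK) ≃ₗ[KK] (Fin (Fintype.card ι) → KK) := LinearEquiv.funCongrLeft KK KK e.symm
  have hL : ∀ z i, L z i = z (e.symm i) := fun z i => rfl
  let N' : Bool → Fin (Fintype.card ι) → Fin (Fintype.card ι) → ℚ :=
    fun a i j => N a (e.symm i) (e.symm j)
  have hN' : ∀ a i j, j ≤ i → N' a i j = 0 := by
    intro a i j hji
    by_contra h
    have h1 := he _ _ (hN a _ _ h)
    rw [Equiv.apply_symm_apply, Equiv.apply_symm_apply] at h1
    exact absurd hji (not_le.mpr h1)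
  let S' : Submodule KK (Fin (Fintype.card ι) → KK) := S.map (L : (ι → KK) →ₗ[KK] _)
  have hcon : ∀ z, con N' (L z) = L (con N z) := by
    intro z
    funext i
    rw [hL]
    unfold con
    have h1 : ∀ a : Bool, ∑ j, pe (gam a) * (pe (C (N' a i j)) * L z j) =
        ∑ j, pe (gam a) * (pe (C (N a (e.symm i) j)) * z j) := by
      intro a
      exact Equiv.sum_comp e.symm (fun j => pe (gam a) * (pe (C (N a (e.symm i) j)) * z j))
    rw [h1 false, h1 true]
    rfl
  have hS' : ∀ z ∈ S', con N' z ∈ S' := by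
    rintro _ ⟨z, hz, rfl⟩
    exact ⟨con N z, hS z hz, (hcon z).symm⟩
  intro z hz
  obtain ⟨y, hy, hyz⟩ := dstab_fin _ N' hN' S' hS' (L z) ⟨z, hz, rfl⟩
  have : (fun i => DK (z i)) = y := by
    apply L.injective
    funext i
    have h1 := congrFun hyz i
    exact h1.symm
  rw [this]
  exact hy

/-- Finite rooted forests with edges labelled by `Bool`. -/
structure Forest (ι : Type) where
  par : ι → Option (Bool × ι)
  len : ι → ℕ
  inj : ∀ w w' x, par w = some x → par w' = some x → w = w'
  len_par : ∀ w a w', par w = some (a, w') → len w = len w' + 1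

variable {ι : Type} [Fintype ι] [DecidableEq ι]

/-- `(Gop T g c)_w = ∑_a g_a c_{aw}` -/
def Gop {R : Type} [CommRing R] (T : Forest ι) (g : Bool → R) (c : ι → R) (w : ι) : R :=
  ∑ u, (T.par u).elim 0 (fun x => if x.2 = w then g x.1 * c u else 0)

/-- the residue operators -/
def Nop {R : Type} [CommRing R] (T : Forest ι) (a : Bool) (c : ι → R) : ι → R :=
  Gop T (fun b => if b = a then 1 else 0) c

/-- matrix of the residue operators -/
def Nmat (T : Forest ι) (a : Bool) (i j : ι) : ℚ := if T.par j = some (a, i) then 1 else 0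

lemma Nop_eq (T : Forest ι) (a : Bool) (z : ι → KK) (i : ι) :
    Nop T a z i = ∑ j, pe (C (Nmat T a i j)) * z j := by
  unfold Nop Gop Nmat
  refine Finset.sum_congr rfl fun j _ => ?_
  rcases hj : T.par j with _ | ⟨b, x⟩
  · simp
  · simp only [Option.elim_some, Option.some.injEq, Prod.mk.injEq]
    by_cases hx : x = i
    · by_cases hb : b = a
      · simp [hx, hb]
      · simp [hx, hb]
    · simp [hx]

lemma Gop_eq (T : Forest ι) (z : ι → KK) (i : ι) :
    Gop T (fun b => -pe (gam b)) z i = - ∑ j, pe (gam false) * (pe (C (Nmat T false i j)) * z j) -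
      ∑ j, pe (gam true) * (pe (C (Nmat T true i j)) * z j) := by
  rw [← Finset.sum_neg_distrib, ← Finset.sum_sub_distrib]
  unfold Gop Nmat
  refine Finset.sum_congr rfl fun j _ => ?_
  rcases hj : T.par j with _ | ⟨b, x⟩
  · simp
  · simp only [Option.elim_some, Option.some.injEq, Prod.mk.injEq]
    by_cases hx : x = i
    · cases b
      · simp [hx]
      · simp [hx]
    · simp [hx]

/-- subspaces stable under the connection of a forest are stable under `D` and the residues -/
theorem forest_stable (T : Forest ι) (S : Submodule KK (ι → KK))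
    (hS : ∀ z ∈ S, (fun w => DK (z w) + Gop T (fun b => -pe (gam b)) z w) ∈ S) :
    (∀ z ∈ S, (fun w => DK (z w)) ∈ S) ∧ ∀ a, ∀ z ∈ S, Nop T a z ∈ S := by
  have h1 : ∀ z ∈ S, con (Nmat T) z ∈ S := by
    intro z hz
    refine (congrArg (· ∈ S) ?_).mp (hS z hz)
    funext i
    rw [Gop_eq]
    unfold con
    ring
  have h2 := dstab (Nmat T) T.len (fun a i j h => by
    unfold Nmat at h
    split_ifs at h with h3
    · have := T.len_par j a i h3
      omega
    · exact absurd rfl h) S h1
  refine ⟨h2, fun a z hz => ?_⟩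
  have h3 := nstable (Nmat T) S h1 h2 a z hz
  refine (congrArg (· ∈ S) ?_).mp h3
  funext i
  exact (Nop_eq T a z i).symm

/-- from a vector to a constant vector supported on the roots -/
theorem to_roots (T : Forest ι) (S : Submodule KK (ι → KK))
    (hS : ∀ z ∈ S, (fun w => DK (z w) + Gop T (fun b => -pe (gam b)) z w) ∈ S)
    (r : ι → ℚ) (z : ι → KK) (hz : z ∈ S) (L : List Bool)
    (h1 : ∀ w, (T.par w).isSome → L.foldl (fun y a => Nop T a y) z w = 0)
    (h2 : ∑ w, pe (C (r w)) * L.foldl (fun y a => Nop T a y) z w ≠ 0) :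
    ∃ c : ι → ℚ, (fun w => pe (C (c w))) ∈ S ∧ (∀ w, (T.par w).isSome → c w = 0) ∧
      ∑ w, r w * c w ≠ 0 := by
  obtain ⟨hD, hN⟩ := forest_stable T S hS
  have hmem : ∀ (L : List Bool) (y : ι → KK), y ∈ S → L.foldl (fun y a => Nop T a y) y ∈ S := by
    intro L
    induction L with
    | nil => intro y hy; exact hy
    | cons a L ih => intro y hy; exact ih _ (hN a y hy)
  let S0 : Submodule KK (ι → KK) :=
    { carrier := {y | y ∈ S ∧ ∀ w, (T.par w).isSome → y w = 0}
      add_mem' := by
        rintro x y ⟨hx, hx'⟩ ⟨hy, hy'⟩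
        exact ⟨S.add_mem hx hy, fun w hw => by rw [Pi.add_apply, hx' w hw, hy' w hw, add_zero]⟩
      zero_mem' := ⟨S.zero_mem, fun _ _ => rfl⟩
      smul_mem' := by
        rintro a x ⟨hx, hx'⟩
        exact ⟨S.smul_mem _ hx, fun w hw => by rw [Pi.smul_apply, hx' w hw, smul_zero]⟩ }
  have hS0 : ∀ y ∈ S0, (fun w => DK (y w)) ∈ S0 := by
    rintro y ⟨hy, hy'⟩
    exact ⟨hD y hy, fun w hw => by
      change DK (y w) = 0
      rw [hy' w hw, map_zero]⟩
  have hx : L.foldl (fun y a => Nop T a y) z ∈ S0 := ⟨hmem L z hz, h1⟩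
  have hsp := dspan S0 hS0 _ hx
  by_contra hcon
  push Not at hcon
  have hcons : ∀ y ∈ cons S0, ∑ w, pe (C (r w)) * y w = 0 := by
    rintro y ⟨⟨hy, hy'⟩, hyc⟩
    choose c hc using fun w => DK_eq_zero (y w) (hyc w)
    have e1 : y = fun w => pe (C (c w)) := funext hc
    have e2 : ∀ w, (T.par w).isSome → c w = 0 := by
      intro w hw
      have h3 := hy' w hw
      rw [hc w] at h3
      have h4 : (C (c w) : ℚ[X]) = 0 := by
        apply IsFractionRing.injective ℚ[X] KK
        rw [map_zero]
        exact h3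
      exact Polynomial.C_eq_zero.mp h4
    have h5 := hcon c (by rw [← e1]; exact hy) e2
    have h6 : ∑ w, pe (C (r w)) * y w = pe (C (∑ w, r w * c w)) := by
      rw [map_sum, map_sum]
      refine Finset.sum_congr rfl fun w _ => ?_
      rw [hc w, map_mul, map_mul]
    rw [h6, h5]
    simp
  apply h2
  have : ∀ y ∈ Submodule.span KK (cons S0), ∑ w, pe (C (r w)) * y w = 0 := by
    intro y hy
    induction hy using Submodule.span_induction with
    | mem x hx => exact hcons x hx
    | zero => simp
    | add x y _ _ hx hy =>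
      simp only [Pi.add_apply, mul_add, Finset.sum_add_distrib, hx, hy, add_zero]
    | smul a x _ hx =>
      have : ∑ w, pe (C (r w)) * (a • x) w = a * ∑ w, pe (C (r w)) * x w := by
        rw [Finset.mul_sum]
        refine Finset.sum_congr rfl fun w _ => ?_
        rw [Pi.smul_apply, smul_eq_mul]
        ring
      rw [this, hx, mul_zero]
  exact this _ hsp

end MPe54452.Exp3
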