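import Pool.Agent.Lib.MP_e54452_nt.VV.VC
import Pool.Agent.Lib.MP_e54452_nt.DF.RkE2

/-!
# Identities for the dual connection: forest and tree
-/

set_option autoImplicit false

open Polynomial Module

namespace MPe54452.Exp3

open MPe54452.Exp (KK pe DK dd gam gb sg dd_C dd_X_mul dd_one_sub_X_mul lin_one_sub_X_mul
  pe_injective pe_elim natDegree_D_le)
open MPe54452.Exp2 (rho AA AA_smul rho_zero_of_deg)

variable {ι κ : Type} [Fintype ι] [DecidableEq ι] [Fintype κ] [DecidableEq κ]

/-- `∇₁ P` for polynomial vectors. -/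
noncomputable def nab (T : Forest ι) (P : ι → ℚ[X]) : ι → ℚ[X] :=
  fun w => -(X * (1 - X) * derivative (P w)) + Gop T gam P w

lemma sum_Gop {R M : Type} [CommRing R] [AddCommMonoid M] (T : Forest ι) (g : Bool → R) (c : ι → R)
    (L : ι → R →+ M) : ∑ w, L w (Gop T g c w) =
      ∑ u, (T.par u).elim 0 (fun x => L x.2 (g x.1 * c u)) := by
  unfold Gop
  simp_rw [map_sum]
  rw [Finset.sum_comm]
  refine Finset.sum_congr rfl fun u _ => ?_
  rcases h : T.par u with _ | x
  · simp
  · simp only [Option.elim_some]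
    rw [Finset.sum_eq_single x.2]
    · simp
    · intro w _ hw
      rw [if_neg (Ne.symm hw), map_zero]
    · intro hx
      exact absurd (Finset.mem_univ _) hx

theorem rk9_Gop_add {R : Type} [CommRing R] (T : Forest ι) (g : Bool → R) (c d : ι → R) (w : ι) :
    Gop T g (c + d) w = Gop T g c w + Gop T g d w := by
  unfold Gop
  rw [← Finset.sum_add_distrib]
  refine Finset.sum_congr rfl fun u _ => ?_
  cases T.par u with
  | none => simp
  | some x =>
    simp only [Option.elim_some]
    split_ifs
    · rw [Pi.add_apply, mul_add]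
    · rw [add_zero]

theorem rk9_Gop_smul {R : Type} [CommRing R] (T : Forest ι) (g : Bool → R) (f : R) (c : ι → R)
    (w : ι) : Gop T g (f • c) w = f * Gop T g c w := by
  unfold Gop
  rw [Finset.mul_sum]
  refine Finset.sum_congr rfl fun u _ => ?_
  cases T.par u with
  | none => simp
  | some x =>
    simp only [Option.elim_some]
    split_ifs
    · rw [Pi.smul_apply, smul_eq_mul]; ring
    · rw [mul_zero]

theorem rk9_Gop_neg {R : Type} [CommRing R] (T : Forest ι) (g : Bool → R) (c : ι → R)
    (w : ι) : Gop T (fun b => -g b) c w = -Gop T g c w := by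
  unfold Gop
  rw [← Finset.sum_neg_distrib]
  refine Finset.sum_congr rfl fun u _ => ?_
  cases T.par u with
  | none => simp
  | some x =>
    simp only [Option.elim_some]
    split_ifs
    · ring
    · rw [neg_zero]

theorem rk9_Gop_zero {R : Type} [CommRing R] (T : Forest ι) (g : Bool → R) (w : ι) :
    Gop T g (0 : ι → R) w = 0 := by
  unfold Gop
  refine Finset.sum_eq_zero fun u _ => ?_
  cases T.par u with
  | none => rfl
  | some x => simp

lemma pe_Gop (T : Forest ι) (g : Bool → ℚ[X]) (c : ι → ℚ[X]) (w : ι) :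
    pe (Gop T g c w) = Gop T (fun b => pe (g b)) (fun u => pe (c u)) w := by
  unfold Gop
  rw [map_sum]
  refine Finset.sum_congr rfl (fun u _ => ?_)
  rw [pe_elim]
  congr 1
  funext x
  split_ifs <;> simp

lemma natDegree_Gop_le (T : Forest ι) (c : ι → ℚ[X]) (w : ι) (a : ℕ)
    (ha : ∀ u, (c u).natDegree ≤ a) : (Gop T gam c w).natDegree ≤ a + 1 := by
  unfold Gop
  refine natDegree_sum_le_of_forall_le _ _ (fun u _ => ?_)
  cases T.par u with
  | none => simp
  | some x =>
    simp only [Option.elim_some]
    split_ifs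
    · refine natDegree_mul_le.trans ?_
      have h1 : (gam x.1).natDegree ≤ 1 := by
        unfold gam
        split_ifs
        · exact (natDegree_sub_le _ _).trans (by simp)
        · simp
      have := ha u
      omega
    · simp

lemma natDegree_nab_le (T : Forest ι) (P : ι → ℚ[X]) (a : ℕ) (ha : ∀ u, (P u).natDegree ≤ a) (w : ι) :
    (nab T P w).natDegree ≤ a + 1 := by
  unfold nab
  refine (natDegree_add_le _ _).trans (max_le ?_ (natDegree_Gop_le T P w a ha))
  rw [natDegree_neg]
  exact natDegree_D_le _ _ (ha w)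

lemma natDegree_iter_le (T : Forest ι) (P : ι → ℚ[X]) (a : ℕ) (ha : ∀ u, (P u).natDegree ≤ a) (i : ℕ) :
    ∀ w, ((nab T)^[i] P w).natDegree ≤ a + i := by
  induction i with
  | zero => exact ha
  | succ i ih =>
    intro w
    rw [Function.iterate_succ', Function.comp_apply]
    exact natDegree_nab_le T _ (a + i) ih w

/-- The relation (E). -/
def RelE (T : Forest ι) (T' : Exp.Tree κ) (l : ι → κ → ℚ[X] →ₗ[ℚ] ℚ) : Prop :=
  ∀ u v h, l u v (derivative (X * (1 - X) * h)) =
    (T.par u).elim 0 (fun x => l x.2 v (gam x.1 * h)) -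
      (T'.par v).elim 0 (fun x => l u x.2 (gb x.1 * h))

/-- the constants `κ` -/
noncomputable def kap (T : Forest ι) (T' : Exp.Tree κ) (l : ι → κ → ℚ[X] →ₗ[ℚ] ℚ) (u : ι) (v : κ) : ℚ :=
  -(l u v 1) - (T.par u).elim 0 (fun x => sg x.1 * l x.2 v 1) -
    (T'.par v).elim 0 (fun x => sg x.1 * l u x.2 1)

omit [Fintype ι] [DecidableEq ι] [Fintype κ] [DecidableEq κ] in
lemma star_step (T : Forest ι) (T' : Exp.Tree κ) (l : ι → κ → ℚ[X] →ₗ[ℚ] ℚ) (hE : RelE T T' l) (u : ι) (v : κ) (p : ℚ[X])
    (ih : -(dd (l u v) (X * (1 - X) * derivative p)) +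
        (T.par u).elim 0 (fun x => dd (l x.2 v) (gam x.1 * p)) =
      -(X * (1 - X) * derivative (dd (l u v) p)) +
        (T'.par v).elim 0 (fun x => gb x.1 * dd (l u x.2) p) - C (kap T T' l u v) * p -
        C (l u v p + (T'.par v).elim 0 (fun x => sg x.1 * l u x.2 p))) :
    -(dd (l u v) (X * (1 - X) * derivative (X * p))) +
        (T.par u).elim 0 (fun x => dd (l x.2 v) (gam x.1 * (X * p))) =
      -(X * (1 - X) * derivative (dd (l u v) (X * p))) +
        (T'.par v).elim 0 (fun x => gb x.1 * dd (l u x.2) (X * p)) - C (kap T T' l u v) * (X * p) -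
        C (l u v (X * p) + (T'.par v).elim 0 (fun x => sg x.1 * l u x.2 (X * p))) := by
  have hR := hE u v p
  have d1 : (derivative (X * (1 - X) * p) : ℚ[X]) =
      (1 - X) * p - X * p + X * (1 - X) * derivative p := by
    rw [derivative_mul, derivative_mul, derivative_X, derivative_sub, derivative_one,
      derivative_X]
    ring
  rw [d1, map_add, map_sub] at hR
  have d2 : (X * (1 - X) * derivative (X * p) : ℚ[X]) =
      X * ((1 - X) * p) + X * (X * (1 - X) * derivative p) := by
    rw [derivative_mul, derivative_X]; ring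
  have d3 : derivative (dd (l u v) (X * p)) = dd (l u v) p + X * derivative (dd (l u v) p) := by
    rw [dd_X_mul, derivative_add, derivative_mul, derivative_X, derivative_C]; ring
  have hRC := congrArg (C : ℚ → ℚ[X]) hR
  rw [d3, d2, map_add, dd_X_mul (l u v) ((1 - X) * p), dd_X_mul (l u v) (X * (1 - X) * derivative p),
    dd_one_sub_X_mul]
  generalize dd (l u v) (X * (1 - X) * derivative p) = A1 at *
  generalize dd (l u v) p = A2 at *
  generalize l u v (X * (1 - X) * derivative p) = b1 at *
  rcases hu : T.par u with _ | ⟨a, u'⟩ <;> rcases hv : T'.par v with _ | ⟨b, v'⟩ <;>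
    simp only [hu, hv, Option.elim] at ih hRC ⊢
  · simp only [map_add, map_sub, map_zero, lin_one_sub_X_mul] at ih hRC ⊢
    linear_combination X * ih - hRC
  · cases b
    · simp only [gb, sg, Bool.false_eq_true, if_false, dd_X_mul, map_add, map_sub, map_zero,
        lin_one_sub_X_mul, one_mul, sub_mul] at ih hRC ⊢
      linear_combination X * ih - hRC
    · simp only [gb, sg, if_true, dd_X_mul, map_add, map_sub, map_zero, map_neg,
        lin_one_sub_X_mul, one_mul, neg_mul, sub_mul] at ih hRC ⊢
      linear_combination X * ih - hRC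
  · cases a
    · simp only [gam, Bool.false_eq_true, if_false, dd_X_mul, map_add, map_sub, map_zero,
        lin_one_sub_X_mul, one_mul] at ih hRC ⊢
      linear_combination X * ih - hRC
    · simp only [gam, if_true, dd_X_mul, dd_one_sub_X_mul, map_add, map_sub, map_zero,
        lin_one_sub_X_mul, one_mul] at ih hRC ⊢
      linear_combination X * ih - hRC
  · cases a <;> cases b
    · simp only [gam, gb, sg, Bool.false_eq_true, if_false, dd_X_mul, map_add, map_sub, map_zero,
        lin_one_sub_X_mul, one_mul, sub_mul] at ih hRC ⊢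
      linear_combination X * ih - hRC
    · simp only [gam, gb, sg, Bool.false_eq_true, if_false, if_true, dd_X_mul, map_add, map_sub,
        map_zero, map_neg, lin_one_sub_X_mul, one_mul, neg_mul, sub_mul] at ih hRC ⊢
      linear_combination X * ih - hRC
    · simp only [gam, gb, sg, Bool.false_eq_true, if_false, if_true, dd_X_mul, dd_one_sub_X_mul,
        map_add, map_sub, map_zero, lin_one_sub_X_mul, one_mul, sub_mul] at ih hRC ⊢
      linear_combination X * ih - hRC
    · simp only [gam, gb, sg, if_true, dd_X_mul, dd_one_sub_X_mul, map_add, map_sub,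
        map_zero, map_neg, lin_one_sub_X_mul, one_mul, neg_mul] at ih hRC ⊢
      linear_combination X * ih - hRC

omit [Fintype ι] [DecidableEq ι] [Fintype κ] [DecidableEq κ] in
/-- ROW rk-7. -/
theorem star (T : Forest ι) (T' : Exp.Tree κ) (l : ι → κ → ℚ[X] →ₗ[ℚ] ℚ) (hE : RelE T T' l) (u : ι) (v : κ) (p : ℚ[X]) :
    -(dd (l u v) (X * (1 - X) * derivative p)) +
        (T.par u).elim 0 (fun x => dd (l x.2 v) (gam x.1 * p)) =
      -(X * (1 - X) * derivative (dd (l u v) p)) +
        (T'.par v).elim 0 (fun x => gb x.1 * dd (l u x.2) p) - C (kap T T' l u v) * p -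
        C (l u v p + (T'.par v).elim 0 (fun x => sg x.1 * l u x.2 p)) := by
  induction p using Polynomial.induction_on with
  | C c =>
    have hl : ∀ (f : ℚ[X] →ₗ[ℚ] ℚ), f (C c) = c * f 1 := by
      intro f
      have : (C c : ℚ[X]) = c • 1 := by rw [smul_eq_C_mul, mul_one]
      rw [this, map_smul, smul_eq_mul]
    have hd1 : ∀ (f : ℚ[X] →ₗ[ℚ] ℚ), dd f (X * C c) = C (c * f 1) := by
      intro f; rw [dd_X_mul, dd_C, hl]; ring
    have hd2 : ∀ (f : ℚ[X] →ₗ[ℚ] ℚ), dd f ((1 - X) * C c) = - C (c * f 1) := by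
      intro f; rw [dd_one_sub_X_mul, dd_C, hl]; ring
    rcases hu : T.par u with _ | ⟨a, u'⟩ <;> rcases hv : T'.par v with _ | ⟨b, v'⟩
    · simp only [hu, hv, Option.elim, kap, dd_C, derivative_C, mul_zero, map_zero, hl, map_add,
        map_sub, map_neg, map_mul]
      ring
    · cases b <;> simp only [hu, hv, Option.elim, kap, dd_C, derivative_C, mul_zero, map_zero, hl,
        map_add, map_sub, map_neg, map_mul, sg, if_true, if_false, Bool.false_eq_true, map_one] <;>
      ring
    · cases a <;> simp only [hu, hv, Option.elim, kap, dd_C, derivative_C, mul_zero, map_zero, hl,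
        map_add, map_sub, map_neg, map_mul, sg, gam, hd1, hd2, if_true, if_false,
        Bool.false_eq_true, map_one] <;>
      ring
    · cases a <;> cases b <;> simp only [hu, hv, Option.elim, kap, dd_C, derivative_C, mul_zero,
        map_zero, hl, map_add, map_sub, map_neg, map_mul, sg, gam, hd1, hd2, if_true, if_false,
        Bool.false_eq_true, map_one] <;>
      ring
  | add p q hp hq =>
    have e1 : X * (1 - X) * derivative (p + q) =
        X * (1 - X) * derivative p + X * (1 - X) * derivative q := by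
      rw [derivative_add]; ring
    rw [e1, map_add, map_add, map_add]
    rcases hu : T.par u with _ | ⟨a, u'⟩ <;> rcases hv : T'.par v with _ | ⟨b, v'⟩ <;>
      simp only [hu, hv, Option.elim, mul_add, map_add, map_zero] at hp hq ⊢ <;>
      linear_combination hp + hq
  | monomial n c hn =>
    have e : (C c * X ^ (n + 1) : ℚ[X]) = X * (C c * X ^ n) := by ring
    rw [e]
    exact star_step T T' l hE u v _ hn

/-- ROW rk-8 (with the next two). `(1)` of the proof. -/
theorem rho_nab (T : Forest ι) (T' : Exp.Tree κ) (l : ι → κ → ℚ[X] →ₗ[ℚ] ℚ) (hE : RelE T T' l) (P : ι → ℚ[X]) (v : κ)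
    (h : ℚ[X]) : rho l (nab T P) v h = rho l P v (derivative (X * (1 - X) * h)) +
      (T'.par v).elim 0 (fun x => rho l P x.2 (gb x.1 * h)) := by
  have h1 : rho l (nab T P) v h = (∑ u, l u v (-(X * (1 - X) * derivative (P u)) * h)) +
      ∑ u, (T.par u).elim 0 (fun x => l x.2 v (gam x.1 * P u * h)) := by
    have h2 := sum_Gop T gam P (fun u => ((l u v).toAddMonoidHom.comp (AddMonoidHom.mulRight h)))
    simp only [AddMonoidHom.coe_comp, Function.comp_apply, AddMonoidHom.coe_mulRight,
      LinearMap.toAddMonoidHom_coe] at h2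
    rw [← h2, ← Finset.sum_add_distrib]
    unfold rho nab
    refine Finset.sum_congr rfl fun u _ => ?_
    rw [add_mul, map_add]
  have h3 : ∀ u, l u v (-(X * (1 - X) * derivative (P u)) * h) =
      l u v (P u * derivative (X * (1 - X) * h)) -
        (T.par u).elim 0 (fun x => l x.2 v (gam x.1 * P u * h)) +
        (T'.par v).elim 0 (fun x => l u x.2 (P u * (gb x.1 * h))) := by
    intro u
    have h4 := hE u v (P u * h)
    have h5 : derivative (X * (1 - X) * (P u * h)) =
        P u * derivative (X * (1 - X) * h) - -(X * (1 - X) * derivative (P u)) * h := by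
      simp only [derivative_mul]
      ring
    rw [h5, map_sub] at h4
    have h6 : ((T.par u).elim 0 (fun x => l x.2 v (gam x.1 * (P u * h))) : ℚ) =
        (T.par u).elim 0 (fun x => l x.2 v (gam x.1 * P u * h)) := by
      congr 1
      funext x
      rw [mul_assoc]
    have h7 : ((T'.par v).elim 0 (fun x => l u x.2 (gb x.1 * (P u * h))) : ℚ) =
        (T'.par v).elim 0 (fun x => l u x.2 (P u * (gb x.1 * h))) := by
      congr 1
      funext x
      rw [mul_left_comm]
    rw [h6, h7] at h4
    linarith
  rw [h1, Finset.sum_congr rfl (fun u _ => h3 u), Finset.sum_add_distrib, Finset.sum_sub_distrib]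
  have h8 : ∑ u, ((T'.par v).elim 0 (fun x => l u x.2 (P u * (gb x.1 * h))) : ℚ) =
      (T'.par v).elim 0 (fun x => rho l P x.2 (gb x.1 * h)) := by
    rcases T'.par v with _ | x
    · simp
    · simp [rho]
  rw [h8]
  unfold rho
  ring

/-- ROW rk-8. `(3)` of the proof. -/
theorem AA_nab (T : Forest ι) (T' : Exp.Tree κ) (l : ι → κ → ℚ[X] →ₗ[ℚ] ℚ) (hE : RelE T T' l) (P : ι → ℚ[X]) (v : κ) :
    AA l (nab T P) v = -(X * (1 - X) * derivative (AA l P v)) +
        (T'.par v).elim 0 (fun x => gb x.1 * AA l P x.2) - ∑ u, C (kap T T' l u v) * P u -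
        C (rho l P v 1 + (T'.par v).elim 0 (fun x => sg x.1 * rho l P x.2 1)) := by
  have h1 : AA l (nab T P) v = ∑ u, (-(dd (l u v) (X * (1 - X) * derivative (P u))) +
      (T.par u).elim 0 (fun x => dd (l x.2 v) (gam x.1 * P u))) := by
    have h2 := sum_Gop T gam P (fun u => (dd (l u v)).toAddMonoidHom)
    simp only [LinearMap.toAddMonoidHom_coe] at h2
    rw [Finset.sum_add_distrib, ← h2, ← Finset.sum_add_distrib]
    unfold AA nab
    refine Finset.sum_congr rfl fun u _ => ?_
    rw [map_add, map_neg]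
  rw [h1, Finset.sum_congr rfl (fun u _ => star T T' l hE u v (P u))]
  rw [Finset.sum_sub_distrib, Finset.sum_sub_distrib, Finset.sum_add_distrib, Finset.sum_neg_distrib,
    ← Finset.mul_sum]
  have h3 : derivative (AA l P v) = ∑ u, derivative (dd (l u v) (P u)) := by
    unfold AA
    rw [map_sum]
  have h4 : ∑ u, ((T'.par v).elim 0 (fun x => gb x.1 * dd (l u x.2) (P u)) : ℚ[X]) =
      (T'.par v).elim 0 (fun x => gb x.1 * AA l P x.2) := by
    rcases T'.par v with _ | x
    · simp
    · simp [AA, Finset.mul_sum]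
  have h5 : ∑ u, (C (l u v (P u) + (T'.par v).elim 0 (fun x => sg x.1 * l u x.2 (P u))) : ℚ[X]) =
      C (rho l P v 1 + (T'.par v).elim 0 (fun x => sg x.1 * rho l P x.2 1)) := by
    rw [← map_sum]
    congr 1
    rw [Finset.sum_add_distrib]
    rcases T'.par v with _ | x
    · simp [rho]
    · simp [rho, Finset.mul_sum]
  rw [h3, h4, h5]

end MPe54452.Exp3
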