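import Pool.Agent.Lib.MP_e54452_nt.VV.VD

/-!
# The semilinear connection on pairs, two trees
-/

set_option autoImplicit false

open Polynomial Module

namespace MPe54452.Exp3

open MPe54452.Exp (KK pe DK dd gam gb sg DK_mul DK_pe DK_noAnti elimination
  rk9_DK_one rk9perp rk9_mem_perp rk9_adj rk9_perp_ne rk9_perp_stable)

variable {ι κ : Type} [Fintype ι] [DecidableEq ι] [Fintype κ] [DecidableEq κ]

/-- The underlying function of the semilinear connection on pairs. -/
noncomputable def NabFun (T : Forest ι) (T' : Exp.Tree κ) (l : ι → κ → ℚ[X] →ₗ[ℚ] ℚ) (R : (ι → KK) × (κ → KK)) :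
    (ι → KK) × (κ → KK) :=
  (fun w => -DK (R.1 w) + Gop T (fun b => pe (gam b)) R.1 w,
    fun v => -DK (R.2 v) + (T'.par v).elim 0 (fun x => pe (gb x.1) * R.2 x.2) -
      ∑ u, pe (C (kap T T' l u v)) * R.1 u)

/-- ROW rk-9 (with the next three). -/
theorem NabFun_add (T : Forest ι) (T' : Exp.Tree κ) (l : ι → κ → ℚ[X] →ₗ[ℚ] ℚ) (R S : (ι → KK) × (κ → KK)) :
    NabFun T T' l (R + S) = NabFun T T' l R + NabFun T T' l S := by
  refine Prod.ext ?_ ?_
  · funext w
    change -DK ((R.1 + S.1) w) + Gop T (fun b => pe (gam b)) (R.1 + S.1) w =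
      (-DK (R.1 w) + Gop T (fun b => pe (gam b)) R.1 w) +
        (-DK (S.1 w) + Gop T (fun b => pe (gam b)) S.1 w)
    rw [rk9_Gop_add, Pi.add_apply, map_add]
    ring
  · funext v
    change -DK ((R.2 + S.2) v) + (T'.par v).elim 0 (fun x => pe (gb x.1) * (R.2 + S.2) x.2) -
      ∑ u, pe (C (kap T T' l u v)) * (R.1 + S.1) u =
      (-DK (R.2 v) + (T'.par v).elim 0 (fun x => pe (gb x.1) * R.2 x.2) -
        ∑ u, pe (C (kap T T' l u v)) * R.1 u) +
      (-DK (S.2 v) + (T'.par v).elim 0 (fun x => pe (gb x.1) * S.2 x.2) -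
        ∑ u, pe (C (kap T T' l u v)) * S.1 u)
    rw [Pi.add_apply, map_add]
    have h1 : (T'.par v).elim 0 (fun x => pe (gb x.1) * (R.2 + S.2) x.2) =
        (T'.par v).elim 0 (fun x => pe (gb x.1) * R.2 x.2) +
        (T'.par v).elim 0 (fun x => pe (gb x.1) * S.2 x.2) := by
      cases T'.par v with
      | none => simp
      | some x => simp only [Option.elim_some, Pi.add_apply, mul_add]
    have h2 : ∑ u, pe (C (kap T T' l u v)) * (R.1 + S.1) u =
        ∑ u, pe (C (kap T T' l u v)) * R.1 u + ∑ u, pe (C (kap T T' l u v)) * S.1 u := by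
      rw [← Finset.sum_add_distrib]
      exact Finset.sum_congr rfl fun u _ => by rw [Pi.add_apply, mul_add]
    rw [h1, h2]
    ring

/-- The semilinear connection on pairs. -/
noncomputable def Nab (T : Forest ι) (T' : Exp.Tree κ) (l : ι → κ → ℚ[X] →ₗ[ℚ] ℚ) :
    ((ι → KK) × (κ → KK)) →+ ((ι → KK) × (κ → KK)) :=
  AddMonoidHom.mk' (NabFun T T' l) (NabFun_add T T' l)



-- PART 2 (after the definition of Nab)
/-- ROW rk-9. -/
theorem Nab_smul (T : Forest ι) (T' : Exp.Tree κ) (l : ι → κ → ℚ[X] →ₗ[ℚ] ℚ) (f : KK) (R : (ι → KK) × (κ → KK)) :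
    Nab T T' l (f • R) = f • Nab T T' l R - DK f • R := by
  refine Prod.ext ?_ ?_
  · funext w
    change -DK (f * R.1 w) + Gop T (fun b => pe (gam b)) (f • R.1) w =
      f * (-DK (R.1 w) + Gop T (fun b => pe (gam b)) R.1 w) - DK f * R.1 w
    rw [rk9_Gop_smul, DK_mul]
    ring
  · funext v
    change -DK (f * R.2 v) + (T'.par v).elim 0 (fun x => pe (gb x.1) * (f • R.2) x.2) -
      ∑ u, pe (C (kap T T' l u v)) * (f • R.1) u =
      f * (-DK (R.2 v) + (T'.par v).elim 0 (fun x => pe (gb x.1) * R.2 x.2) -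
        ∑ u, pe (C (kap T T' l u v)) * R.1 u) - DK f * R.2 v
    have h1 : (T'.par v).elim 0 (fun x => pe (gb x.1) * (f • R.2) x.2) =
        f * (T'.par v).elim 0 (fun x => pe (gb x.1) * R.2 x.2) := by
      cases T'.par v with
      | none => simp
      | some x => simp only [Option.elim_some, Pi.smul_apply, smul_eq_mul]; ring
    have h2 : ∑ u, pe (C (kap T T' l u v)) * (f • R.1) u =
        f * ∑ u, pe (C (kap T T' l u v)) * R.1 u := by
      rw [Finset.mul_sum]
      exact Finset.sum_congr rfl fun u _ => by rw [Pi.smul_apply, smul_eq_mul]; ring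
    rw [h1, h2, DK_mul]
    ring

/-- if `Y` contains a constant vector supported on the roots with nonzero value, then `Y` contains
all vectors `(0, A)` -/
theorem zz_top (T : Forest ι) (T' : Exp.Tree κ) (l : ι → κ → ℚ[X] →ₗ[ℚ] ℚ)
    (Y : Submodule KK ((ι → KK) × (κ → KK))) (hY : ∀ y ∈ Y, Nab T T' l y ∈ Y)
    (y : (ι → KK) × (κ → KK)) (hy : y ∈ Y) (c : ι → ℚ) (hy1 : y.1 = fun w => pe (C (c w)))
    (hroots : ∀ w, (T.par w).isSome → c w = 0) (hc : ∑ w, l w T'.root 1 * c w ≠ 0)
    (A : κ → KK) : ((0, A) : (ι → KK) × (κ → KK)) ∈ Y := by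
  -- step B
  have hB1 : (Nab T T' l y).1 = 0 := by
    funext w
    change -DK (y.1 w) + Gop T (fun b => pe (gam b)) y.1 w = 0
    have h1 : DK (y.1 w) = 0 := by
      rw [hy1]
      change DK (pe (C (c w))) = 0
      rw [DK_pe]
      simp
    have h2 : Gop T (fun b => pe (gam b)) y.1 w = 0 := by
      unfold Gop
      refine Finset.sum_eq_zero fun u _ => ?_
      rcases hu : T.par u with _ | x
      · rfl
      · have h3 : y.1 u = 0 := by
          rw [hy1]
          change pe (C (c u)) = 0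
          rw [hroots u (by rw [hu]; rfl)]
          simp
        simp only [Option.elim_some, h3, mul_zero, ite_self]
    rw [h1, h2]
    simp
  have hB2 : (Nab T T' l y).2 T'.root =
      -DK (y.2 T'.root) + pe (C (∑ w, l w T'.root 1 * c w)) := by
    change -DK (y.2 T'.root) + (T'.par T'.root).elim 0 (fun x => pe (gb x.1) * y.2 x.2) -
      ∑ u, pe (C (kap T T' l u T'.root)) * y.1 u = _
    have h1 : ∑ u, pe (C (kap T T' l u T'.root)) * y.1 u =
        -pe (C (∑ w, l w T'.root 1 * c w)) := by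
      rw [map_sum, map_sum, ← Finset.sum_neg_distrib]
      refine Finset.sum_congr rfl fun u _ => ?_
      have h2 : y.1 u = pe (C (c u)) := by rw [hy1]
      rw [h2, ← map_mul, ← map_mul, ← map_neg, ← map_neg]
      congr 2
      rcases hu : T.par u with _ | x
      · unfold kap
        rw [hu, T'.par_root]
        simp
      · rw [hroots u (by rw [hu]; rfl)]
        simp
    rw [h1, T'.par_root]
    simp
  have hB3 : (Nab T T' l y).2 T'.root ≠ 0 := by
    rw [hB2]
    intro h0
    have h1 : DK (y.2 T'.root) = pe (C (∑ w, l w T'.root 1 * c w) * (1 - X) +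
        C (∑ w, l w T'.root 1 * c w) * X) := by
      have h2 : DK (y.2 T'.root) = pe (C (∑ w, l w T'.root 1 * c w)) := by
        linear_combination -h0
      rw [h2]
      congr 1
      ring
    exact hc (DK_noAnti _ _ _ h1).1
  have hZmem : ∀ B : κ → KK, B ∈ Submodule.comap (LinearMap.inr KK (ι → KK) (κ → KK)) Y ↔
      ((0, B) : (ι → KK) × (κ → KK)) ∈ Y := fun B => Iff.rfl
  have hB4 : (Nab T T' l y).2 ∈ Submodule.comap (LinearMap.inr KK (ι → KK) (κ → KK)) Y := by
    rw [hZmem, ← hB1]
    exact hY y hy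
  have hst : ∀ B ∈ Submodule.comap (LinearMap.inr KK (ι → KK) (κ → KK)) Y,
      (fun v => -DK (B v) + (T'.par v).elim 0 (fun x => pe (gb x.1) * B x.2)) ∈
        Submodule.comap (LinearMap.inr KK (ι → KK) (κ → KK)) Y := by
    intro B hB
    rw [hZmem] at hB ⊢
    have h1 := hY _ hB
    have h2 : Nab T T' l ((0, B) : (ι → KK) × (κ → KK)) =
        (0, fun v => -DK (B v) + (T'.par v).elim 0 (fun x => pe (gb x.1) * B x.2)) := by
      refine Prod.ext ?_ ?_
      · funext w
        change -DK 0 + Gop T (fun b => pe (gam b)) 0 w = 0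
        rw [rk9_Gop_zero, map_zero, neg_zero, add_zero]
      · funext v
        change -DK (B v) + (T'.par v).elim 0 (fun x => pe (gb x.1) * B x.2) -
          ∑ u, pe (C (kap T T' l u v)) * (0 : ι → KK) u =
          -DK (B v) + (T'.par v).elim 0 (fun x => pe (gb x.1) * B x.2)
        simp
    rw [h2] at h1
    exact h1
  by_contra hcon
  have hZ : Submodule.comap (LinearMap.inr KK (ι → KK) (κ → KK)) Y ≠ ⊤ := by
    intro htop
    apply hcon
    rw [← hZmem, htop]
    exact Submodule.mem_top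
  have hfin : (Pi.single T'.root 1 : κ → KK) ∈
      rk9perp (Submodule.comap (LinearMap.inr KK (ι → KK) (κ → KK)) Y) := by
    refine elimination T' (fun b => pe (gb b)) ?_ _ (rk9_perp_ne _ hZ) ?_
    · intro f α β hf
      refine DK_noAnti f α β ?_
      rw [hf]
      simp only [gb, if_true, map_add, map_mul, map_sub, map_one, Bool.false_eq_true, if_false]
    · exact rk9_perp_stable T' (fun b => pe (gb b)) _ hst
  have h5 := hfin _ hB4
  rw [Finset.sum_eq_single T'.root] at h5
  · rw [Pi.single_eq_same, one_mul] at h5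
    exact hB3 h5
  · intro u _ hu
    rw [Pi.single_eq_of_ne hu, zero_mul]
  · intro h; exact absurd (Finset.mem_univ _) h

end MPe54452.Exp3
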