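import Pool.Agent.Lib.MP_e54452_nt.VV.VF
import Pool.Agent.Lib.MP_e54452_nt.DF.RkF2

/-!
# The vector valued rank lemma for two families of words
-/

set_option autoImplicit false

open Polynomial Module

namespace MZG

open MPe54452
open MPe54452.Exp3 (Forest Nop)

/-- copies of the forest of a family, indexed by `δ` -/
def vforest {F : Finset (List Bool)} {s : ℕ} (hF : Fam F s) (δ : Type) :
    Forest ({w : List Bool // w ∈ F} × δ) where
  par := fun x => (fpar hF x.1).map (fun y => (y.1, (y.2, x.2)))
  len := fun x => x.1.1.length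
  inj := by
    rintro ⟨w, k⟩ ⟨w', k'⟩ x h h'
    simp only [Option.map_eq_some_iff] at h h'
    obtain ⟨y, hy, hyx⟩ := h
    obtain ⟨y', hy', hyx'⟩ := h'
    have e := hyx.trans hyx'.symm
    simp only [Prod.mk.injEq] at e
    have e1 : y = y' := Prod.ext e.1 e.2.1
    subst e1
    have := (ftree hF).inj w w' y hy hy'
    rw [this, e.2.2]
  len_par := by
    rintro ⟨w, k⟩ a ⟨w', k'⟩ h
    simp only [Option.map_eq_some_iff, Prod.mk.injEq] at h
    obtain ⟨y, hy, ha, hw, _⟩ := h
    have := (ftree hF).len_par w y.1 y.2 hy
    rw [hw] at this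
    exact this

lemma vforest_foldl {F : Finset (List Bool)} {s : ℕ} (hF : Fam F s) {δ : Type} [Fintype δ]
    [DecidableEq δ] (L : List Bool) : ∀ (P : List Bool → δ → ℚ[X]),
    (∀ w, w ∉ F → ∀ k, P w k = 0) → ∀ (w : {w : List Bool // w ∈ F}) (k : δ),
    L.foldl (fun y a => Nop (vforest hF δ) a y) (fun x => P x.1.1 x.2) (w, k) =
      P (L ++ w.1) k := by
  induction L with
  | nil => intro P _ w k; rfl
  | cons a L ih =>
    intro P hP w k
    rw [List.foldl_cons]
    have h : Nop (vforest hF δ) a (fun x => P x.1.1 x.2) =
        fun x => (fun w k => if w ∈ F then P (a :: w) k else 0) x.1.1 x.2 := by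
      funext x
      obtain ⟨⟨w, hw⟩, k⟩ := x
      simp only [hw, if_true]
      unfold Nop Exp3.Gop
      by_cases hmem : a :: w ∈ F
      · rw [Finset.sum_eq_single (⟨⟨a :: w, hmem⟩, k⟩ : {w : List Bool // w ∈ F} × δ)]
        · simp [vforest, fpar]
        · rintro ⟨⟨w', hw'⟩, k'⟩ _ hne
          cases w' with
          | nil => simp [vforest, fpar]
          | cons b v =>
            simp only [vforest, fpar, Option.map_some, Option.elim_some, Prod.mk.injEq,
              Subtype.mk.injEq]
            by_cases h1 : v = w ∧ k' = k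
            · rw [if_pos h1]
              by_cases h2 : b = a
              · exfalso
                apply hne
                rw [Prod.mk.injEq, Subtype.mk.injEq]
                exact ⟨by rw [h2, h1.1], h1.2⟩
              · rw [if_neg h2, zero_mul]
            · rw [if_neg h1]
        · intro h; exact absurd (Finset.mem_univ _) h
      · rw [hP _ hmem]
        refine Finset.sum_eq_zero ?_
        rintro ⟨⟨w', hw'⟩, k'⟩ _
        cases w' with
        | nil => simp [vforest, fpar]
        | cons b v =>
          simp only [vforest, fpar, Option.map_some, Option.elim_some, Prod.mk.injEq,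
            Subtype.mk.injEq]
          by_cases h1 : v = w ∧ k' = k
          · rw [if_pos h1]
            by_cases h2 : b = a
            · exfalso
              apply hmem
              rw [← h2, ← h1.1]
              exact hw'
            · rw [if_neg h2, zero_mul]
          · rw [if_neg h1]
    rw [h]
    have h2 := ih (fun w k => if w ∈ F then P (a :: w) k else 0)
      (fun w hw k => by simp [hw]) w k
    rw [h2]
    by_cases h3 : L ++ w.1 ∈ F
    · simp [h3]
    · have h4 : (a :: L) ++ w.1 ∉ F := fun h5 => h3 (hF.tail a _ h5)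
      rw [hP _ h4]
      simp [h3]

open Exp in
theorem rank_vec {U V : Finset (List Bool)} {s s2 : ℕ} (hU : Fam U s) (hV : Fam V s2)
    {δ : Type} [Fintype δ] [DecidableEq δ] (hUV : Fintype.card δ * U.card ≤ V.card)
    (mu : δ → List Bool → List Bool → ℕ → ℚ) (k0 : δ) (h0 : mu k0 [] [] 0 ≠ 0)
    (h0' : ∀ k, k ≠ k0 → mu k [] [] 0 = 0)
    (hrec : ∀ k w v, good w = true → good v = true → ∀ j : ℕ,
      ((j : ℚ) + 2) * mu k w v (j + 1) - ((j : ℚ) + 1) * mu k w v j =
        Vp (mu k) w v j - Wp (mu k) w v j)
    (a n : ℕ) (hn : a + 2 * (Fintype.card δ * U.card + V.card) ≤ n) (Q : List Bool → δ → ℚ[X])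
    (hQ : ∀ w, w ∉ U → ∀ k, Q w k = 0)
    (hdeg : ∀ w k, (Q w k).natDegree ≤ a) (u : List Bool) (hu : u ∈ U)
    (hmax : ∀ w ∈ U, u <+: w → w = u) (hne : Q u k0 ≠ 0) :
    ∃ v ∈ V, ∃ j ≤ n, ∑ k, ∑ w ∈ U, (Q w k).sum (fun i t => t * mu k w v (i + j)) ≠ 0 := by
  let l : {w : List Bool // w ∈ U} × δ → {w : List Bool // w ∈ V} → ℚ[X] →ₗ[ℚ] ℚ :=
    fun x v => fl (mu x.2 x.1.1 v.1)
  have hE : Exp3.RelE (vforest hU δ) (ftree hV) l := by
    rintro ⟨⟨u, hu⟩, k⟩ ⟨v, hv⟩ f
    induction f using Polynomial.induction_on' with
    | add p q hp hq =>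
      rw [mul_add, derivative_add, map_add, hp, hq]
      cases (vforest hU δ).par (⟨u, hu⟩, k) <;> cases (ftree hV).par ⟨v, hv⟩ <;>
        simp [mul_add, map_add] <;> ring
    | monomial j t =>
      have e1 : derivative (X * (1 - X) * monomial j t : ℚ[X]) =
          monomial j (t * (j + 1)) - monomial (j + 1) (t * (j + 2)) := by
        have e0 : (X * (1 - X) * monomial j t : ℚ[X]) = monomial (j + 1) t - monomial (j + 2) t := by
          rw [← Polynomial.C_mul_X_pow_eq_monomial, ← Polynomial.C_mul_X_pow_eq_monomial,
            ← Polynomial.C_mul_X_pow_eq_monomial]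
          ring
        rw [e0, derivative_sub, derivative_monomial, derivative_monomial]
        congr 2
        · push_cast; ring
        · push_cast; ring
      have e2 : (X * monomial j t : ℚ[X]) = monomial (j + 1) t := by
        rw [X_mul_monomial]
      have e3 : ((1 - X) * monomial j t : ℚ[X]) = monomial j t - monomial (j + 1) t := by
        rw [sub_mul, one_mul, X_mul_monomial]
      have hr := hrec k u v (hU.good u hu) (hV.good v hv) j
      have hl : ∀ x v p, l x v p = fl (mu x.2 x.1.1 v.1) p := fun x v p => rfl
      rw [e1, map_sub, hl, hl, fl_monomial, fl_monomial]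
      have key : (t * (j + 1) * mu k u v j) - (t * (j + 2) * mu k u v (j + 1)) =
          t * (Wp (mu k) u v j - Vp (mu k) u v j) := by
        linear_combination (-t) * hr
      have eW : ((vforest hU δ).par (⟨u, hu⟩, k)).elim 0
          (fun x => (l x.2 ⟨v, hv⟩) (gam x.1 * monomial j t)) = t * Wp (mu k) u v j := by
        cases u with
        | nil => simp [vforest, fpar, Wp]
        | cons b u =>
          cases b with
          | false =>
            change fl (mu k u v) (gam false * monomial j t) = t * mu k u v (j + 1)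
            rw [show gam false = X from rfl, e2, fl_monomial]
          | true =>
            change fl (mu k u v) (gam true * monomial j t) = t * (mu k u v j - mu k u v (j + 1))
            rw [show gam true = 1 - X from rfl, e3, map_sub, fl_monomial, fl_monomial]
            ring
      have eV : ((ftree hV).par ⟨v, hv⟩).elim 0
          (fun x => (l (⟨u, hu⟩, k) x.2) (gb x.1 * monomial j t)) = t * Vp (mu k) u v j := by
        cases v with
        | nil => simp [ftree, fpar, Vp]
        | cons b v =>
          cases b with
          | false =>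
            change fl (mu k u v) (gb false * monomial j t) = t * (mu k u v j - mu k u v (j + 1))
            rw [show gb false = 1 - X from rfl, e3, map_sub, fl_monomial, fl_monomial]
            ring
          | true =>
            change fl (mu k u v) (gb true * monomial j t) = t * mu k u v (j + 1)
            rw [show gb true = X from rfl, e2, fl_monomial]
      rw [eW, eV]
      change t * (j + 1) * mu k u v j - t * (j + 2) * mu k u v (j + 1) = _
      rw [key]
      ring
  have hfold := vforest_foldl hU u Q hQ
  have hlr : ∀ k : δ, l (⟨[], hU.nil⟩, k) (ftree hV).root 1 = mu k [] [] 0 := by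
    intro k
    change fl (mu k [] []) 1 = _
    have : (1 : ℚ[X]) = X ^ 0 := by simp
    rw [this, fl_X_pow]
  have hQu : ∀ w : {w : List Bool // w ∈ U}, ∀ k, w.1 ≠ [] → Q (u ++ w.1) k = 0 := by
    intro w k hw
    apply hQ
    intro h1
    apply hw
    have h2 := hmax _ h1 (List.prefix_append u w.1)
    simpa using h2
  obtain ⟨v, j, hj, hne2⟩ := Exp3.rank_lemma (vforest hU δ) (ftree hV) l hE
    (fun x => Q x.1.1 x.2) a n (fun x => hdeg _ _)
    (by
      rw [Fintype.card_prod, Fintype.card_coe, Fintype.card_coe, mul_comm]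
      exact hUV)
    (by
      rw [Fintype.card_prod, Fintype.card_coe, Fintype.card_coe, mul_comm U.card]
      exact hn) u
    (by
      rintro ⟨⟨w, hw⟩, k⟩ hs
      rw [hfold]
      apply hQu ⟨w, hw⟩
      rintro h1
      have h2 : w = [] := h1
      subst h2
      simp [vforest, fpar] at hs)
    (by
      rw [Finset.sum_eq_single (⟨⟨[], hU.nil⟩, k0⟩ : {w : List Bool // w ∈ U} × δ)]
      · rw [hfold, hlr]
        change C (mu k0 [] [] 0) * Q (u ++ []) k0 ≠ 0
        rw [List.append_nil]
        exact mul_ne_zero (fun h => h0 (Polynomial.C_eq_zero.mp h)) hne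
      · rintro ⟨w, k⟩ _ hwk
        by_cases hw : w.1 = []
        · have hw2 : w = ⟨[], hU.nil⟩ := Subtype.ext hw
          subst hw2
          have hk : k ≠ k0 := fun h => hwk (by rw [h])
          rw [hlr, h0' k hk]
          simp
        · rw [hfold, hQu w k hw, mul_zero]
      · intro h; exact absurd (Finset.mem_univ _) h)
  refine ⟨v.1, v.2, j, hj, ?_⟩
  intro h
  apply hne2
  rw [Fintype.sum_prod_type, Finset.sum_comm, ← h]
  refine Finset.sum_congr rfl fun k _ => ?_
  rw [← Finset.sum_coe_sort U (fun w => (Q w k).sum fun i t => t * mu k w v.1 (i + j))]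
  refine Finset.sum_congr rfl fun w _ => ?_
  exact fl_mul_X_pow _ _ _

end MZG
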