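import Pool.Agent.Lib.MP_e54452_nt.VV.VG
import Pool.Agent.Lib.MP_e54452_nt.DF.RKF

/-!
# The vector valued left kernel
-/

set_option autoImplicit false

namespace MZG

open Finset
open scoped ENNReal Nat Polynomial

lemma la_rat_mul (la : ℝ →ₗ[ℚ] ℚ) (q : ℚ) (r : ℝ) : la ((q : ℝ) * r) = q * la r := by
  have h : (q : ℝ) * r = q • r := (Rat.smul_def q r).symm
  rw [h, map_smul, smul_eq_mul]

theorem left_kernel_vec {A B : Finset (List Bool)} {s s2 : ℕ} (hA : Fam A s) (hB : Fam B s2)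
    {δ : Type} [Fintype δ] [DecidableEq δ] (hAB : Fintype.card δ * A.card ≤ B.card) (n a : ℕ)
    (la : δ → ℝ →ₗ[ℚ] ℚ) (k0 : δ) (h1 : la k0 1 ≠ 0) (h1' : ∀ k, k ≠ k0 → la k 1 = 0)
    (hn : a + 2 * (Fintype.card δ * A.card + B.card) ≤ n)
    (t : IdF A n → δ → ℚ) (ha : ∀ x : IdF A n, a < x.2 → ∀ k, t x k = 0)
    (h : ∀ y : IdF B n, ∑ x : IdF A n, ∑ k, t x k * la k (sx x.2 y.2 x.1 y.1) = 0)
    (x0 : IdF A n) (hx0 : ∀ w ∈ A, x0.1.1 <+: w → w = x0.1.1) : t x0 k0 = 0 := by
  classical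
  by_contra hne
  let P : List Bool → δ → ℚ[X] := fun w k => RKF_F (fun x => t x k) w
  let Q : List Bool → δ → ℚ[X] := fun w k => (P w k).comp (1 - Polynomial.X)
  have hP0 : ∀ w, w ∉ A → ∀ k, P w k = 0 := by
    intro w hw k
    simp only [P]
    unfold RKF_F
    rw [dif_neg hw]
  have hQdeg : ∀ w k, (Q w k).natDegree ≤ a := by
    intro w k
    change ((P w k).comp (1 - Polynomial.X)).natDegree ≤ a
    rw [Polynomial.natDegree_comp]
    have h1 : (1 - Polynomial.X : ℚ[X]).natDegree ≤ 1 := by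
      refine (Polynomial.natDegree_sub_le _ _).trans ?_
      simp
    calc (P w k).natDegree * (1 - Polynomial.X : ℚ[X]).natDegree
        ≤ (P w k).natDegree * 1 := Nat.mul_le_mul_left _ h1
      _ ≤ a := by rw [mul_one]; exact RKF_deg a _ (fun x hx => ha x hx k) w
  have hQne : Q x0.1.1 k0 ≠ 0 := by
    intro h5
    apply hne
    have h6 : P x0.1.1 k0 = 0 := by
      have h7 : (Q x0.1.1 k0).comp (1 - Polynomial.X) = P x0.1.1 k0 := by
        simp only [Q]
        rw [Polynomial.comp_assoc]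
        have : (1 - Polynomial.X : ℚ[X]).comp (1 - Polynomial.X) = Polynomial.X := by
          simp
        rw [this, Polynomial.comp_X]
      rw [← h7, h5, Polynomial.zero_comp]
    have h8 := RKF_coeff (fun x => t x k0) x0.1.1 x0.1.2 x0.2 x0.2.2
    have h9 : (RKF_F (fun x => t x k0) x0.1.1) = 0 := h6
    rw [h9, Polynomial.coeff_zero] at h8
    exact h8.symm
  obtain ⟨v, hv, j, hj, hne2⟩ := rank_vec hA hB hAB (fun k => muL (la k)) k0
    (by rw [muL_nil]; exact h1)
    (fun k hk => by rw [muL_nil]; exact h1' k hk)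
    (fun k w v hw hv j => muL_rec (la k) w v hw hv j) a n hn Q
    (fun w hw k => by
      change (P w k).comp (1 - Polynomial.X) = 0
      rw [hP0 w hw k, Polynomial.zero_comp])
    hQdeg x0.1.1 x0.1.2 hx0 hQne
  apply hne2
  have h2 := h (⟨v, hv⟩, ⟨j, Nat.lt_succ_of_le hj⟩)
  rw [Finset.sum_comm] at h2
  rw [← h2]
  refine Finset.sum_congr rfl fun k _ => ?_
  have h3 : ∀ w : {w : List Bool // w ∈ A},
      la k ((RKF_F (fun x => t x k) w.1).sum fun i x => (x : ℝ) * sx i j w.1 v) =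
      (Q w.1 k).sum fun i x => x * muL (la k) w.1 v (i + j) := by
    intro w
    have hw := hA.good w.1 w.2
    rw [comp_sx w.1 v hw (hB.good v hv), RKb_la]
    change _ = ((RKF_F (fun x => t x k) w.1).comp (1 - Polynomial.X)).sum _
    congr 1
    funext i x
    have h3 : sx 0 (i + j) w.1 v = (Se (i + j) v w.1).toReal := by
      rw [sx_symm]
      unfold sx
      rw [Sx_zero]
    rw [h3]
    rfl
  rw [← Finset.sum_coe_sort A (fun w => (Q w k).sum fun i t => t * muL (la k) w v (i + j)),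
    Fintype.sum_prod_type]
  refine Finset.sum_congr rfl fun w _ => ?_
  rw [← h3 w, Polynomial.sum_over_range' _ (by intro i; simp) (n + 1) (RKF_deg' _ w.1),
    Finset.sum_range, map_sum]
  refine Finset.sum_congr rfl fun i _ => ?_
  rw [RKF_coeff (fun x => t x k) w.1 w.2 i i.2, la_rat_mul]

end MZG
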