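import Mathlib

/-!
# Selecting a nonzero minor
-/

set_option autoImplicit false

namespace MZG

open Finset

/-- independent columns: there is a nonzero minor of full size -/
theorem exists_rows {Y Z : Type} [Fintype Z] [DecidableEq Z] [Fintype Y]
    (A : Matrix Y Z ℚ) (h : ∀ c : Z → ℚ, (∀ y, ∑ z, A y z * c z = 0) → c = 0) :
    ∃ rr : Z → Y, (A.submatrix rr id).det ≠ 0 := by
  classical
  obtain ⟨κ, a, ha, hspan, hli⟩ := exists_linearIndependent' ℚ (fun y : Y => (A y : Z → ℚ))
  have htop : Submodule.span ℚ (Set.range ((fun y : Y => (A y : Z → ℚ)) ∘ a)) = ⊤ := by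
    rw [hspan]
    by_contra hne
    obtain ⟨φ, hφ, hker⟩ := Submodule.exists_le_ker_of_lt_top _ (lt_top_iff_ne_top.2 hne)
    have hexp : ∀ x : Z → ℚ, φ x = ∑ z, φ (Pi.single z 1) * x z := by
      intro x
      conv_lhs => rw [pi_eq_sum_univ' x]
      rw [map_sum]
      refine Finset.sum_congr rfl fun v _ => ?_
      rw [map_smul, smul_eq_mul, mul_comm]
    have h1 : (fun z => φ (Pi.single z 1)) = 0 := by
      apply h
      intro y
      have h2 : φ (A y) = 0 := hker (Submodule.subset_span ⟨y, rfl⟩)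
      rw [hexp] at h2
      rw [← h2]
      exact Finset.sum_congr rfl fun z _ => mul_comm _ _
    apply hφ
    refine LinearMap.ext fun x => ?_
    rw [hexp, LinearMap.zero_apply]
    refine Finset.sum_eq_zero fun v _ => ?_
    rw [show φ (Pi.single v 1) = 0 from congrFun h1 v, zero_mul]
  haveI : Finite κ := Finite.of_injective a ha
  haveI : Fintype κ := Fintype.ofFinite κ
  let bb : Module.Basis κ ℚ (Z → ℚ) := Module.Basis.mk hli (by rw [htop])
  have hcard : Fintype.card Z = Fintype.card κ := by
    have h1 := Module.finrank_eq_card_basis bb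
    rw [Module.finrank_fintype_fun_eq_card] at h1
    exact h1
  obtain ⟨e⟩ := Fintype.card_eq.mp hcard
  refine ⟨a ∘ e, ?_⟩
  have hli2 : LinearIndependent ℚ ((A.submatrix (a ∘ e) id).row) := by
    have h1 := hli.comp e e.injective
    exact h1
  have h2 := Matrix.linearIndependent_rows_iff_isUnit.mp hli2
  exact ((Matrix.isUnit_iff_isUnit_det _).mp h2).ne_zero

/-- the determinant identity -/
theorem exists_minor {Y X δ : Type} [Fintype Y] [Fintype X] [DecidableEq X] [Fintype δ]
    [DecidableEq δ] (M : δ → Y → X → ℚ) (k0 : δ)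
    (hind : ∀ g : X → δ → ℚ, (∀ y, ∑ x, ∑ k, g x k * M k y x = 0) → ∀ x, g x k0 = 0)
    (b : δ → ℝ) (hb : b k0 = 1) :
    ∃ (J : Type) (_ : Fintype J) (_ : DecidableEq J) (e : J → X × δ) (rr : X ⊕ J → Y)
      (Mt : Matrix (X ⊕ J) (X ⊕ J) ℚ) (Nt : Matrix (X ⊕ J) (X ⊕ J) ℝ),
      Fintype.card (X ⊕ J) ≤ Fintype.card δ * Fintype.card X ∧
      (∀ z x, Mt z (Sum.inl x) = M k0 (rr z) x) ∧
      (∀ z j, Mt z (Sum.inr j) = M (e j).2 (rr z) (e j).1) ∧
      (∀ z x, Nt z (Sum.inl x) = ∑ k, b k * (M k (rr z) x : ℝ)) ∧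
      (∀ z j, Nt z (Sum.inr j) = (M (e j).2 (rr z) (e j).1 : ℝ)) ∧
      Mt.det ≠ 0 ∧ Nt.det = ((Mt.det : ℚ) : ℝ) := by
  classical
  let I : Type := {p : X × δ // p.2 ≠ k0}
  let v : I → (Y → ℚ) := fun p y => M p.1.2 y p.1.1
  obtain ⟨J, a, ha, hspan, hli⟩ := exists_linearIndependent' ℚ v
  haveI : Finite J := Finite.of_injective a ha
  haveI : Fintype J := Fintype.ofFinite J
  let A : Matrix Y (X ⊕ J) ℚ := fun y z => Sum.elim (fun x => M k0 y x) (fun j => v (a j) y) z
  have hA : ∀ c : X ⊕ J → ℚ, (∀ y, ∑ z, A y z * c z = 0) → c = 0 := by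
    intro c hc
    let g : X → δ → ℚ := fun x k => if k = k0 then c (Sum.inl x) else
      ∑ j, if (a j).1 = (x, k) then c (Sum.inr j) else 0
    have hg : ∀ y, ∑ x, ∑ k, g x k * M k y x = ∑ z, A y z * c z := by
      intro y
      rw [Fintype.sum_sum_type]
      have h1 : ∀ x, ∑ k, g x k * M k y x = M k0 y x * c (Sum.inl x) +
          ∑ k, ∑ j, if (a j).1 = (x, k) then c (Sum.inr j) * M k y x else 0 := by
        intro x
        rw [← Finset.add_sum_erase _ _ (Finset.mem_univ k0)]
        congr 1
        · simp only [g, if_true]; ring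
        · rw [← Finset.add_sum_erase (Finset.univ) (fun k => ∑ j, if (a j).1 = (x, k) then
            c (Sum.inr j) * M k y x else 0) (Finset.mem_univ k0)]
          have h2 : (∑ j, if (a j).1 = (x, k0) then c (Sum.inr j) * M k0 y x else 0) = 0 := by
            refine Finset.sum_eq_zero fun j _ => ?_
            rw [if_neg]
            intro h3
            exact (a j).2 (by rw [h3])
          rw [h2, zero_add]
          refine Finset.sum_congr rfl fun k hk => ?_
          have hk' : k ≠ k0 := (Finset.mem_erase.mp hk).1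
          simp only [g]
          rw [if_neg hk', Finset.sum_mul]
          refine Finset.sum_congr rfl fun j _ => ?_
          split_ifs
          · rfl
          · rw [zero_mul]
      rw [Finset.sum_congr rfl fun x _ => h1 x, Finset.sum_add_distrib]
      congr 1
      have h2 : ∀ j : J, A y (Sum.inr j) * c (Sum.inr j) =
          ∑ x, ∑ k, if (a j).1 = (x, k) then c (Sum.inr j) * M k y x else 0 := by
        intro j
        rw [Finset.sum_eq_single (a j).1.1, Finset.sum_eq_single (a j).1.2]
        · simp only [Prod.mk.eta, if_true]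
          change M (a j).1.2 y (a j).1.1 * c (Sum.inr j) = _
          ring
        · intro k _ hk
          rw [if_neg]
          intro h3
          exact hk (by rw [h3])
        · intro h; exact absurd (Finset.mem_univ _) h
        · intro x _ hx
          refine Finset.sum_eq_zero fun k _ => ?_
          rw [if_neg]
          intro h3
          exact hx (by rw [h3])
        · intro h; exact absurd (Finset.mem_univ _) h
      rw [Finset.sum_congr rfl fun j _ => h2 j]
      symm
      rw [Finset.sum_comm]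
      refine Finset.sum_congr rfl fun x _ => ?_
      rw [Finset.sum_comm]
    have h0 := hind g (fun y => by rw [hg, hc])
    have hinl : ∀ x, c (Sum.inl x) = 0 := by
      intro x
      have := h0 x
      simpa [g] using this
    have hinr : ∀ j, c (Sum.inr j) = 0 := by
      rw [Fintype.linearIndependent_iff] at hli
      refine hli (fun j => c (Sum.inr j)) ?_
      funext y
      have h1 := hc y
      rw [Fintype.sum_sum_type] at h1
      have h2 : ∑ x, A y (Sum.inl x) * c (Sum.inl x) = 0 :=
        Finset.sum_eq_zero fun x _ => by rw [hinl x, mul_zero]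
      rw [h2, zero_add] at h1
      rw [Finset.sum_apply, Pi.zero_apply, ← h1]
      refine Finset.sum_congr rfl fun j _ => ?_
      rw [Pi.smul_apply, smul_eq_mul, mul_comm]
      rfl
    funext z
    rcases z with x | j
    · exact hinl x
    · exact hinr j
  obtain ⟨rr, hrr⟩ := exists_rows A hA
  -- coefficients
  have hco : ∀ p : I, ∃ γ : J → ℚ, ∀ y, v p y = ∑ j, γ j * v (a j) y := by
    intro p
    have h1 : v p ∈ Submodule.span ℚ (Set.range (v ∘ a)) := by
      rw [hspan]
      exact Submodule.subset_span ⟨p, rfl⟩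
    obtain ⟨γ, hγ⟩ := (Submodule.mem_span_range_iff_exists_fun ℚ).mp h1
    refine ⟨γ, fun y => ?_⟩
    rw [← hγ, Finset.sum_apply]
    refine Finset.sum_congr rfl fun j _ => ?_
    rw [Pi.smul_apply, smul_eq_mul]
    rfl
  choose γ hγ using hco
  let Γ : Matrix J X ℝ := fun j x => ∑ k, if hk : k ≠ k0 then b k * (γ ⟨(x, k), hk⟩ j : ℝ) else 0
  let U : Matrix (X ⊕ J) (X ⊕ J) ℝ := Matrix.fromBlocks 1 0 Γ 1
  let Mt : Matrix (X ⊕ J) (X ⊕ J) ℚ := A.submatrix rr id
  let Nt : Matrix (X ⊕ J) (X ⊕ J) ℝ := Mt.map (fun q : ℚ => (q : ℝ)) * U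
  have hU : U.det = 1 := by
    simp only [U]
    rw [Matrix.det_fromBlocks_zero₁₂]
    simp
  refine ⟨J, inferInstance, inferInstance, fun j => (a j).1, rr, Mt, Nt, ?_, fun z x => rfl,
    fun z j => rfl, ?_, ?_, hrr, ?_⟩
  · rw [Fintype.card_sum]
    have h1 : Fintype.card J ≤ Fintype.card I := Fintype.card_le_of_injective a ha
    have h2 : Fintype.card I + Fintype.card X = Fintype.card δ * Fintype.card X := by
      have h3 : Fintype.card I = Fintype.card (X × {k : δ // k ≠ k0}) :=
        Fintype.card_congr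
          { toFun := fun p => (p.1.1, ⟨p.1.2, p.2⟩)
            invFun := fun p => ⟨(p.1, p.2.1), p.2.2⟩
            left_inv := fun p => rfl
            right_inv := fun p => rfl }
      rw [h3, Fintype.card_prod]
      have h4 : Fintype.card {k : δ // k ≠ k0} + 1 = Fintype.card δ := by
        have h5 := Fintype.card_subtype_compl (fun k : δ => k = k0)
        have h6 : Fintype.card {k : δ // k = k0} = 1 := by simp
        have h7 : 0 < Fintype.card δ := Fintype.card_pos_iff.mpr ⟨k0⟩
        rw [h6] at h5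
        have h8 : Fintype.card {k : δ // k ≠ k0} = Fintype.card {x : δ // ¬x = k0} := rfl
        omega
      rw [← h4]
      ring
    omega
  · intro z x
    have h0 : Nt z (Sum.inl x) = ∑ w : X ⊕ J, ((Mt z w : ℚ) : ℝ) * U w (Sum.inl x) := rfl
    rw [h0, Fintype.sum_sum_type]
    have h1 : ∑ x' : X, ((Mt z (Sum.inl x') : ℚ) : ℝ) * U (Sum.inl x') (Sum.inl x) =
        (M k0 (rr z) x : ℝ) := by
      rw [Finset.sum_eq_single x]
      · simp only [U, Matrix.fromBlocks_apply₁₁, Matrix.one_apply_eq, mul_one]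
        rfl
      · intro x' _ hx'
        simp only [U, Matrix.fromBlocks_apply₁₁, Matrix.one_apply_ne hx', mul_zero]
      · intro h; exact absurd (Finset.mem_univ _) h
    have h2 : ∑ j : J, ((Mt z (Sum.inr j) : ℚ) : ℝ) * U (Sum.inr j) (Sum.inl x) =
        ∑ k, if k ≠ k0 then b k * (M k (rr z) x : ℝ) else 0 := by
      have h3 : ∀ j : J, ((Mt z (Sum.inr j) : ℚ) : ℝ) * U (Sum.inr j) (Sum.inl x) =
          ∑ k, if hk : k ≠ k0 then b k * ((γ ⟨(x, k), hk⟩ j : ℝ) * (v (a j) (rr z) : ℝ)) else 0 := by
        intro j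
        have h4 : U (Sum.inr j) (Sum.inl x) = Γ j x := by
          simp only [U, Matrix.fromBlocks_apply₂₁]
        rw [h4]
        simp only [Γ]
        rw [Finset.mul_sum]
        refine Finset.sum_congr rfl fun k _ => ?_
        split_ifs with hk
        · change ((v (a j) (rr z) : ℚ) : ℝ) * _ = _
          ring
        · rw [mul_zero]
      rw [Finset.sum_congr rfl fun j _ => h3 j, Finset.sum_comm]
      refine Finset.sum_congr rfl fun k _ => ?_
      by_cases hk : k ≠ k0
      · simp only [dif_pos hk, if_pos hk]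
        rw [← Finset.mul_sum]
        congr 1
        have h5 := hγ ⟨(x, k), hk⟩ (rr z)
        have h6 : v ⟨(x, k), hk⟩ (rr z) = M k (rr z) x := rfl
        rw [← h6, h5]
        push_cast
        rfl
      · simp only [dif_neg hk, if_neg hk, Finset.sum_const_zero]
    rw [h1, h2]
    rw [← Finset.add_sum_erase Finset.univ (fun k => b k * (M k (rr z) x : ℝ)) (Finset.mem_univ k0),
      ← Finset.add_sum_erase Finset.univ (fun k => if k ≠ k0 then b k * (M k (rr z) x : ℝ) else 0)
        (Finset.mem_univ k0)]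
    simp only [ne_eq, not_true_eq_false, if_false, zero_add, hb, one_mul]
    congr 1
    refine Finset.sum_congr rfl fun k hk => ?_
    rw [if_pos (Finset.mem_erase.mp hk).1]
  · intro z j
    have h0 : Nt z (Sum.inr j) = ∑ w : X ⊕ J, ((Mt z w : ℚ) : ℝ) * U w (Sum.inr j) := rfl
    rw [h0, Fintype.sum_sum_type]
    have h1 : ∑ x' : X, ((Mt z (Sum.inl x') : ℚ) : ℝ) * U (Sum.inl x') (Sum.inr j) = 0 := by
      refine Finset.sum_eq_zero fun x' _ => ?_
      simp only [U, Matrix.fromBlocks_apply₁₂, Matrix.zero_apply, mul_zero]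
    have h2 : ∑ j' : J, ((Mt z (Sum.inr j') : ℚ) : ℝ) * U (Sum.inr j') (Sum.inr j) =
        ((v (a j) (rr z) : ℚ) : ℝ) := by
      rw [Finset.sum_eq_single j]
      · simp only [U, Matrix.fromBlocks_apply₂₂, Matrix.one_apply_eq, mul_one]
        rfl
      · intro x' _ hx'
        simp only [U, Matrix.fromBlocks_apply₂₂, Matrix.one_apply_ne hx', mul_zero]
      · intro h; exact absurd (Finset.mem_univ _) h
    rw [h1, h2, zero_add]
  · simp only [Nt]
    rw [Matrix.det_mul, hU, mul_one]
    have := RingHom.map_det (algebraMap ℚ ℝ) Mt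
    rw [show (((Mt.det : ℚ)) : ℝ) = algebraMap ℚ ℝ Mt.det from rfl, this]
    rfl

end MZG
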