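import Pool.Agent.Lib.MP_e54452_nt.VV.VH
import Pool.Agent.Lib.MP_e54452_nt.VV.VI
import Pool.Agent.Lib.MP_e54452_nt.DF.SXF
import Pool.Agent.Lib.MP_e54452_nt.DF.CRF
import Pool.Agent.Lib.MP_e54452_nt.DF.FIF

/-!
# Coordinates and denominators
-/

set_option autoImplicit false

namespace MZG

open Finset Module
open scoped ENNReal Nat Polynomial

lemma Fam.mono {F : Finset (List Bool)} {s s' : ℕ} (h : Fam F s) (hs : s ≤ s') : Fam F s' :=
  ⟨h.nil, h.tail, h.good, fun w hw => (h.len w hw).trans hs⟩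

/-- a basis containing `1`, with extended coordinate functionals -/
theorem exists_basis_one (V : Submodule ℚ ℝ) [FiniteDimensional ℚ V] (h1 : (1 : ℝ) ∈ V) :
    ∃ (δ : Type) (_ : Fintype δ) (_ : DecidableEq δ) (k0 : δ) (b : δ → ℝ) (la : δ → ℝ →ₗ[ℚ] ℚ),
      Fintype.card δ = finrank ℚ V ∧ b k0 = 1 ∧ la k0 1 = 1 ∧ (∀ k, k ≠ k0 → la k 1 = 0) ∧
      ∀ x ∈ V, x = ∑ k, b k * (la k x : ℝ) := by
  classical
  let v1 : V := ⟨1, h1⟩
  have hv1 : v1 ≠ 0 := by
    intro h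
    have := congrArg (fun x : V => (x : ℝ)) h
    simp [v1] at this
  have hli : LinearIndepOn ℚ id ({v1} : Set V) := by
    rw [linearIndepOn_singleton_iff]
    exact hv1
  obtain ⟨δ, _, _, k0, B, hB0⟩ : ∃ (δ : Type) (_ : Fintype δ) (_ : DecidableEq δ) (k0 : δ)
      (B : Basis δ ℚ V), B k0 = v1 := by
    let B := Basis.extend hli
    haveI : Fintype ↑(hli.extend (Set.subset_univ _)) := FiniteDimensional.fintypeBasisIndex B
    refine ⟨_, inferInstance, Classical.decEq _,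
      ⟨v1, hli.subset_extend (Set.subset_univ _) (Set.mem_singleton _)⟩, B, ?_⟩
    simp only [B, Basis.extend_apply_self]
  have hext : ∀ k, ∃ g : ℝ →ₗ[ℚ] ℚ, g.comp V.subtype = B.coord k :=
    fun k => LinearMap.exists_extend (B.coord k)
  choose g hg using hext
  have hg' : ∀ k (x : V), g k x = B.coord k x := by
    intro k x
    exact congrArg (fun f => f x) (hg k)
  refine ⟨δ, inferInstance, inferInstance, k0, fun k => (B k : ℝ), g, ?_, ?_, ?_, ?_, ?_⟩
  · exact (finrank_eq_card_basis B).symm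
  · change ((B k0 : V) : ℝ) = 1
    rw [hB0]
  · have h2 := hg' k0 v1
    change g k0 1 = _ at h2
    rw [h2, ← hB0, Basis.coord_apply, Basis.repr_self, Finsupp.single_eq_same]
  · intro k hk
    have h2 := hg' k v1
    change g k 1 = _ at h2
    rw [h2, ← hB0, Basis.coord_apply, Basis.repr_self, Finsupp.single_eq_of_ne hk]
  · intro x hx
    have h2 := B.sum_repr (⟨x, hx⟩ : V)
    have h3 := congrArg (fun y : V => (y : ℝ)) h2
    simp only [Submodule.coe_sum, Submodule.coe_smul] at h3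
    have h4 : ∀ k, g k x = B.repr ⟨x, hx⟩ k := fun k => hg' k ⟨x, hx⟩
    simp only [h4]
    refine h3.symm.trans (Finset.sum_congr rfl fun k _ => ?_)
    rw [Rat.smul_def, mul_comm]

/-- common denominators -/
theorem exists_denom (p : List Bool → Prop) (hfin : {z | p z}.Finite) {δ : Type} [Fintype δ]
    (la : δ → ℝ →ₗ[ℚ] ℚ) : ∃ q0 : ℕ, 1 ≤ q0 ∧ ∃ C0 : ℝ, 1 ≤ C0 ∧
    ∀ (k : δ) (H x : ℝ), RepP p H x →
      (∃ z : ℤ, (q0 : ℚ) * la k x = z) ∧ |((la k x : ℚ) : ℝ)| ≤ C0 * H := by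
  classical
  let S : Finset (List Bool) := hfin.toFinset
  have hS : ∀ z, p z → z ∈ S := fun z hz => hfin.mem_toFinset.mpr hz
  let q0 : ℕ := ∏ z ∈ S, ∏ k : δ, (la k (zr z)).den
  let C0 : ℝ := 1 + ∑ z ∈ S, ∑ k : δ, |((la k (zr z) : ℚ) : ℝ)|
  have hq0 : 1 ≤ q0 := Nat.one_le_iff_ne_zero.mpr (Finset.prod_ne_zero_iff.mpr fun z _ =>
    Finset.prod_ne_zero_iff.mpr fun k _ => (la k (zr z)).den_nz)
  have hC : ∀ z ∈ S, ∀ k, |((la k (zr z) : ℚ) : ℝ)| ≤ C0 := by
    intro z hz k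
    have h1 : |((la k (zr z) : ℚ) : ℝ)| ≤ ∑ k : δ, |((la k (zr z) : ℚ) : ℝ)| :=
      Finset.single_le_sum (f := fun k => |((la k (zr z) : ℚ) : ℝ)|) (fun _ _ => abs_nonneg _)
        (Finset.mem_univ k)
    have h2 : ∑ k : δ, |((la k (zr z) : ℚ) : ℝ)| ≤
        ∑ z ∈ S, ∑ k : δ, |((la k (zr z) : ℚ) : ℝ)| :=
      Finset.single_le_sum (f := fun z => ∑ k : δ, |((la k (zr z) : ℚ) : ℝ)|)
        (fun _ _ => Finset.sum_nonneg fun _ _ => abs_nonneg _) hz
    have h3 : ∑ z ∈ S, ∑ k : δ, |((la k (zr z) : ℚ) : ℝ)| ≤ C0 := by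
      simp only [C0]; linarith
    linarith
  have hC1 : 1 ≤ C0 := by
    have : 0 ≤ ∑ z ∈ S, ∑ k : δ, |((la k (zr z) : ℚ) : ℝ)| :=
      Finset.sum_nonneg fun _ _ => Finset.sum_nonneg fun _ _ => abs_nonneg _
    simp only [C0]; linarith
  have hint : ∀ z ∈ S, ∀ k, ∃ m : ℤ, (q0 : ℚ) * la k (zr z) = m := by
    intro z hz k
    have h1 : (la k (zr z)).den ∣ q0 :=
      (Finset.dvd_prod_of_mem (fun k => (la k (zr z)).den) (Finset.mem_univ k)).trans
        (Finset.dvd_prod_of_mem (fun z => ∏ k : δ, (la k (zr z)).den) hz)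
    obtain ⟨m, hm⟩ := h1
    refine ⟨m * (la k (zr z)).num, ?_⟩
    have h2 : ((la k (zr z)).den : ℚ) ≠ 0 := by exact_mod_cast (la k (zr z)).den_nz
    have h3 : la k (zr z) * (la k (zr z)).den = (la k (zr z)).num := Rat.mul_den_eq_num _
    rw [hm]
    push_cast
    rw [← h3]
    ring
  refine ⟨q0, hq0, C0, hC1, ?_⟩
  rintro k H x ⟨a, ha, haH, hx⟩
  have hla : la k x = ∑ z ∈ a.support, ((a z : ℤ) : ℚ) * la k (zr z) := by
    rw [hx, Finsupp.sum, map_sum]
    refine Finset.sum_congr rfl fun z _ => ?_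
    have := la_rat_mul (la k) ((a z : ℤ) : ℚ) (zr z)
    rw [← this]
    congr 1
  constructor
  · choose! m hm using hint
    refine ⟨∑ z ∈ a.support, a z * m z k, ?_⟩
    rw [hla, Finset.mul_sum]
    push_cast
    refine Finset.sum_congr rfl fun z hz => ?_
    rw [← hm z (hS z (ha z hz)) k]
    ring
  · rw [hla]
    push_cast
    refine (Finset.abs_sum_le_sum_abs _ _).trans ?_
    have h1 : ∑ z ∈ a.support, |((a z : ℤ) : ℝ) * ((la k (zr z) : ℚ) : ℝ)| ≤
        ∑ z ∈ a.support, C0 * |((a z : ℤ) : ℝ)| := by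
      refine Finset.sum_le_sum fun z hz => ?_
      rw [abs_mul, mul_comm]
      exact mul_le_mul_of_nonneg_right (hC z (hS z (ha z hz)) k) (abs_nonneg _)
    refine h1.trans ?_
    rw [← Finset.mul_sum]
    exact mul_le_mul_of_nonneg_left haH (by linarith)

/-- nonzero determinants of matrices with bounded denominators are not small -/
theorem det_lower {Z : Type} [Fintype Z] [DecidableEq Z] (M : Matrix Z Z ℚ) (q : ℕ) (hq : 1 ≤ q)
    (hM : ∀ i j, ∃ z : ℤ, (q : ℚ) * M i j = z) (hdet : M.det ≠ 0) :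
    1 ≤ (q : ℝ) ^ Fintype.card Z * |((M.det : ℚ) : ℝ)| := by
  choose z hz using hM
  have h1 : ((q : ℚ) • M).det = (q : ℚ) ^ Fintype.card Z * M.det := Matrix.det_smul M (q : ℚ)
  have h2 : ((q : ℚ) • M) = (Matrix.of z).map (fun m : ℤ => (m : ℚ)) := by
    ext i j
    rw [Matrix.smul_apply, smul_eq_mul, hz i j]
    rfl
  have h3 : ((Matrix.of z).map (fun m : ℤ => (m : ℚ))).det = (((Matrix.of z).det : ℤ) : ℚ) := by
    have := RingHom.map_det (Int.castRingHom ℚ) (Matrix.of z)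
    rw [show (((Matrix.of z).det : ℤ) : ℚ) = Int.castRingHom ℚ (Matrix.of z).det from rfl, this]
    rfl
  rw [h2, h3] at h1
  have hne : (Matrix.of z).det ≠ 0 := by
    intro h0
    rw [h0] at h1
    have hq' : (q : ℚ) ^ Fintype.card Z ≠ 0 := pow_ne_zero _ (by
      have : q ≠ 0 := by omega
      exact_mod_cast this)
    exact mul_ne_zero hq' hdet (by rw [← h1]; simp)
  have h4 : (1 : ℝ) ≤ |(((Matrix.of z).det : ℤ) : ℝ)| := by
    have : (1 : ℤ) ≤ |(Matrix.of z).det| := Int.one_le_abs hne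
    exact_mod_cast this
  have h5 : (((Matrix.of z).det : ℤ) : ℝ) = (q : ℝ) ^ Fintype.card Z * ((M.det : ℚ) : ℝ) := by
    generalize (Matrix.of z).det = y at h1 ⊢
    generalize M.det = w at h1 ⊢
    have h6 : (((y : ℤ) : ℚ) : ℝ) = (((q : ℚ) ^ Fintype.card Z * w : ℚ) : ℝ) := by rw [h1]
    rw [Rat.cast_intCast, Rat.cast_mul, Rat.cast_pow, Rat.cast_natCast] at h6
    exact h6
  rw [h5, abs_mul, abs_of_nonneg (by positivity)] at h4
  exact h4

end MZG
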