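import Pool.Agent.Lib.MP_e54452_nt.VV.VJ
import Pool.Agent.Lib.MP_e54452_nt.TH.Small

/-!
# The main inequality for two families
-/

set_option autoImplicit false

namespace MZG

open Finset Module
open scoped ENNReal Nat Polynomial

/-- the words of `A` that are not proper prefixes of words of `A` -/
def TopF (A : Finset (List Bool)) : Finset (List Bool) :=
  A.filter (fun u => ∀ w ∈ A, u <+: w → w = u)

lemma one_mem_MP {A B : Finset (List Bool)} {s s2 : ℕ} (hA : Fam A s) (hB : Fam B s2) :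
    (1 : ℝ) ∈ MP (VW A B) := by
  have h := RepP.int (p := VW A B) ⟨rfl, [], hA.nil, [], hB.nil, rfl⟩ 1
  have h2 := RepP.mem h
  simpa using h2

/-- the entries: coordinates, denominators and sizes -/
theorem entries {A B : Finset (List Bool)} {s1 s2 : ℕ} (hA : Fam A s1) (hB : Fam B s2) (M : ℕ)
    (hM : s1 + s2 ≤ M) {δ : Type} [Fintype δ] (la : δ → ℝ →ₗ[ℚ] ℚ) (q0 : ℕ) (C0 : ℝ)
    (hd : ∀ (k : δ) (H x : ℝ), RepP (VW A B) H x →
      (∃ z : ℤ, (q0 : ℚ) * la k x = z) ∧ |((la k x : ℚ) : ℝ)| ≤ C0 * H) (n : ℕ)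
    (x : IdF A n) (y : IdF B n) (k : δ) :
    sx x.2 y.2 x.1 y.1 ∈ MP (VW A B) ∧
    (∃ z : ℤ, ((q0 * dd (2 * n + 1) ^ (M + 1) : ℕ) : ℚ) * la k (sx x.2 y.2 x.1 y.1) = z) ∧
    |((la k (sx x.2 y.2 x.1 y.1) : ℚ) : ℝ)| ≤ 2 ^ n * 4 ^ M * C0 := by
  have hA' := hA.mono (le_max_left s1 s2)
  have hB' := hB.mono (le_max_right s1 s2)
  have hx := hA.len x.1.1 x.1.2
  have hy := hB.len y.1.1 y.1.2
  have hx2 := x.2.2
  have hy2 := y.2.2
  have hDpos : (0 : ℝ) < (dd (2 * n + 1) : ℝ) ^ (M + 1) := by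
    have : (0 : ℝ) < (dd (2 * n + 1) : ℝ) := by exact_mod_cast dd_pos _
    positivity
  have h1 := sx_repF' hA' hB' (VW A B) (fun z hz => hz) (2 * n) (dd (2 * n + 1)) (dd_pos _)
      (fun j h1 h2 => dvd_dd j _ h1 h2)
      x.1.1 y.1.1 x.1.2 y.1.2 M (by omega) x.2 y.2 n (by omega) (by omega)
  obtain ⟨⟨z, hz⟩, hb⟩ := hd k _ _ h1
  have hlam : la k ((dd (2 * n + 1) : ℝ) ^ (M + 1) * sx x.2 y.2 x.1 y.1) =
      (dd (2 * n + 1) : ℚ) ^ (M + 1) * la k (sx x.2 y.2 x.1 y.1) := by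
    have := la_rat_mul (la k) ((dd (2 * n + 1) : ℚ) ^ (M + 1)) (sx x.2 y.2 x.1 y.1)
    rw [← this]
    congr 1
    push_cast
    rfl
  refine ⟨?_, ⟨z, ?_⟩, ?_⟩
  · have h2 := (MP (VW A B)).smul_mem ((dd (2 * n + 1) : ℚ) ^ (M + 1))⁻¹ (RepP.mem h1)
    rw [Rat.smul_def] at h2
    push_cast at h2
    rwa [← mul_assoc, inv_mul_cancel₀ hDpos.ne', one_mul] at h2
  · rw [← hz, hlam]
    push_cast
    ring
  · rw [hlam] at hb
    push_cast at hb
    rw [abs_mul, abs_of_pos hDpos] at hb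
    have h3 : (dd (2 * n + 1) : ℝ) ^ (M + 1) * |((la k (sx x.2 y.2 x.1 y.1) : ℚ) : ℝ)| ≤
        (dd (2 * n + 1) : ℝ) ^ (M + 1) * (2 ^ n * 4 ^ M * C0) := by
      refine hb.trans (le_of_eq ?_)
      ring
    exact le_of_mul_le_mul_left h3 hDpos

/-- THEOREM 0: two suffix-closed families `A`, `B` with `d |A| ≤ |B|`. -/
theorem main3 {A B : Finset (List Bool)} {s1 s2 : ℕ} (hA : Fam A s1) (hB : Fam B s2) (M : ℕ)
    (hM : s1 + s2 ≤ M) (h : finrank ℚ (MP (VW A B)) * A.card ≤ B.card) :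
    (TopF A).card ≤ (8 * M + 10) * finrank ℚ (MP (VW A B)) := by
  classical
  haveI hfd := MP_finite (VW A B) (VW_finite A B)
  obtain ⟨δ, _, _, k0, b, la, hcard, hb, hla1, hla0, hrepr⟩ :=
    exists_basis_one (MP (VW A B)) (one_mem_MP hA hB)
  obtain ⟨q0, hq0, C0, hC0, hd⟩ := exists_denom (VW A B) (VW_finite A B) la
  set d := finrank ℚ (MP (VW A B)) with hd'
  have hd1 : 1 ≤ Fintype.card δ := Fintype.card_pos_iff.mpr ⟨k0⟩
  set c0 := 2 * (Fintype.card δ * A.card + B.card) with hc0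
  have hq0' : (1 : ℝ) ≤ (q0 : ℝ) := by exact_mod_cast hq0
  refine limit_all (TopF A).card d M c0 q0 C0 hq0' hC0 fun be h1 h4 => ?_
  obtain ⟨G, hG, hGs⟩ := nt_small be h1 h4 hA hB
  refine ⟨G, hG, fun n hn => ?_⟩
  -- the columns
  let X : Type := {u : List Bool // u ∈ TopF A} × Fin (n + 1 - c0)
  have hXA : ∀ x : X, x.1.1 ∈ A := fun x => (Finset.mem_filter.mp x.1.2).1
  let xx : X → IdF A n := fun x => (⟨x.1.1, hXA x⟩, ⟨x.2.1, by have := x.2.2; omega⟩)
  have hxx : Function.Injective xx := by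
    rintro ⟨⟨u, hu⟩, i⟩ ⟨⟨u', hu'⟩, i'⟩ he
    simp only [xx, Prod.mk.injEq, Subtype.mk.injEq, Fin.mk.injEq] at he
    obtain ⟨e1, e2⟩ := he
    subst e1
    have e3 : i = i' := Fin.ext e2
    rw [e3]
  have hXcard : Fintype.card X = (TopF A).card * (n + 1 - c0) := by
    rw [Fintype.card_prod, Fintype.card_coe, Fintype.card_fin]
  let M' : δ → IdF B n → X → ℚ := fun k y x => la k (sx (xx x).2 y.2 (xx x).1 y.1)
  have hent := fun (x : X) (y : IdF B n) (k : δ) =>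
    entries hA hB M hM la q0 C0 hd n (xx x) y k
  have hind : ∀ g : X → δ → ℚ, (∀ y, ∑ x, ∑ k, g x k * M' k y x = 0) → ∀ x, g x k0 = 0 := by
    intro g hg x
    let t : IdF A n → δ → ℚ := fun z k => ∑ x : X, if xx x = z then g x k else 0
    have ht : ∀ x k, t (xx x) k = g x k := by
      intro x k
      simp only [t]
      rw [Finset.sum_eq_single x]
      · simp
      · intro x' _ hx'
        rw [if_neg (fun h => hx' (hxx h))]
      · intro h; exact absurd (Finset.mem_univ _) h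
    rw [← ht]
    refine left_kernel_vec hA hB (δ := δ) (by rw [hcard]; exact h) n (n - c0) la k0
      (by rw [hla1]; exact one_ne_zero) hla0 (by omega) t ?_ ?_ (xx x) ?_
    · intro z hz k
      simp only [t]
      refine Finset.sum_eq_zero fun x _ => ?_
      rw [if_neg]
      intro he
      rw [← he] at hz
      have : ((xx x).2 : ℕ) = x.2.1 := rfl
      have h2 := x.2.2
      omega
    · intro y
      rw [← hg y]
      have e1 : ∀ z : IdF A n, ∑ k, t z k * la k (sx z.2 y.2 z.1 y.1) =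
          ∑ x : X, if xx x = z then ∑ k, g x k * M' k y x else 0 := by
        intro z
        simp only [t, Finset.sum_mul]
        rw [Finset.sum_comm]
        refine Finset.sum_congr rfl fun x _ => ?_
        split_ifs with he
        · refine Finset.sum_congr rfl fun k _ => ?_
          rw [← he]
        · simp
      rw [Finset.sum_congr rfl fun z _ => e1 z, Finset.sum_comm]
      refine Finset.sum_congr rfl fun x _ => ?_
      rw [Finset.sum_ite_eq]
      simp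
    · intro w hw hpre
      exact (Finset.mem_filter.mp x.1.2).2 w hw hpre
  obtain ⟨J, _, _, e, rr, Mt, Nt, hcards, hMl, hMr, hNl, hNr, hdet, hdet2⟩ :=
    exists_minor M' k0 hind b hb
  have hD : (dd (2 * n + 1) : ℝ) ≥ 1 := by exact_mod_cast dd_pos (2 * n + 1)
  have hlow : 1 ≤ (((q0 * dd (2 * n + 1) ^ (M + 1) : ℕ)) : ℝ) ^ Fintype.card (X ⊕ J) *
      |((Mt.det : ℚ) : ℝ)| := by
    refine det_lower Mt _ ?_ ?_ hdet
    · exact Nat.mul_pos hq0 (Nat.pow_pos (dd_pos _))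
    · intro z w
      rcases w with x | j
      · rw [hMl]; exact (hent x (rr z) k0).2.1
      · rw [hMr]; exact (hent (e j).1 (rr z) (e j).2).2.1
  have hE : (0 : ℝ) ≤ 2 ^ n * 4 ^ M * C0 := by positivity
  have hE1 : (1 : ℝ) ≤ 2 ^ n * 4 ^ M * C0 := by
    have h2 : (1 : ℝ) ≤ 2 ^ n := one_le_pow₀ (by norm_num)
    have h3 : (1 : ℝ) ≤ 4 ^ M := one_le_pow₀ (by norm_num)
    have h5 : (1 : ℝ) ≤ 2 ^ n * 4 ^ M := one_le_mul_of_one_le_of_one_le h2 h3
    exact one_le_mul_of_one_le_of_one_le h5 hC0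
  have hup := hGs n X J xx rr Nt (2 ^ n * 4 ^ M * C0) hE
    (by
      intro z x
      rw [hNl]
      exact (hrepr _ (hent x (rr z) k0).1).symm)
    (by
      intro z j
      rw [hNr]
      exact (hent (e j).1 (rr z) (e j).2).2.2)
  rw [hdet2] at hup
  have hT : Fintype.card (X ⊕ J) ≤ d * ((TopF A).card * (n + 1 - c0)) := by
    rw [hcard, hXcard] at hcards
    exact hcards
  have hJ : Fintype.card J ≤ d * ((TopF A).card * (n + 1 - c0)) := by
    refine le_trans ?_ hT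
    rw [Fintype.card_sum]
    omega
  have hdec : 0 < TH.dec be ((TopF A).card * (n + 1 - c0)) := Real.exp_pos _
  have hQ1 : (1 : ℝ) ≤ (q0 : ℝ) * (dd (2 * n + 1) : ℝ) ^ (M + 1) :=
    one_le_mul_of_one_le_of_one_le hq0' (one_le_pow₀ hD)
  have hcast : (((q0 * dd (2 * n + 1) ^ (M + 1) : ℕ)) : ℝ) =
      (q0 : ℝ) * (dd (2 * n + 1) : ℝ) ^ (M + 1) := by push_cast; rfl
  rw [hcast] at hlow
  rw [hXcard] at hup
  refine hlow.trans ?_
  have e1 : ((q0 : ℝ) * (dd (2 * n + 1) : ℝ) ^ (M + 1)) ^ Fintype.card (X ⊕ J) ≤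
      ((q0 : ℝ) * (dd (2 * n + 1) : ℝ) ^ (M + 1)) ^ (d * ((TopF A).card * (n + 1 - c0))) :=
    pow_le_pow_right₀ hQ1 hT
  have e2 : ((Fintype.card (X ⊕ J))! : ℝ) ≤ ((d * ((TopF A).card * (n + 1 - c0)))! : ℝ) := by
    exact_mod_cast Nat.factorial_le hT
  have e3 : (2 ^ n * 4 ^ M * C0) ^ Fintype.card J ≤
      (2 ^ n * 4 ^ M * C0) ^ (d * ((TopF A).card * (n + 1 - c0))) := pow_le_pow_right₀ hE1 hJ
  have hG0 : 0 ≤ G ^ ((TopF A).card * (n + 1 - c0)) := by positivity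
  calc ((q0 : ℝ) * (dd (2 * n + 1) : ℝ) ^ (M + 1)) ^ Fintype.card (X ⊕ J) * |((Mt.det : ℚ) : ℝ)|
      ≤ ((q0 : ℝ) * (dd (2 * n + 1) : ℝ) ^ (M + 1)) ^ (d * ((TopF A).card * (n + 1 - c0))) *
        (((d * ((TopF A).card * (n + 1 - c0)))! : ℝ) *
          (2 ^ n * 4 ^ M * C0) ^ (d * ((TopF A).card * (n + 1 - c0))) *
          G ^ ((TopF A).card * (n + 1 - c0)) * TH.dec be ((TopF A).card * (n + 1 - c0))) := by
        refine mul_le_mul e1 (hup.trans ?_) (abs_nonneg _) (by positivity)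
        refine mul_le_mul_of_nonneg_right ?_ hdec.le
        refine mul_le_mul_of_nonneg_right ?_ hG0
        exact mul_le_mul e2 e3 (by positivity) (by positivity)
    _ = _ := by ring

end MZG
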